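import Mathlib
import Pool.Agent.Run7.h327.Th.Crit

/-!
# The pillow model of the sphere and the degree two map
-/

set_option autoImplicit false

open Set Filter Topology

namespace Pool.Agent.Run7.h327.Tr

open Pool.Agent.Run7.h327.Th

/-- the pillow in `ℝ³` -/
noncomputable def cc (z : ℂ) : V3 := !₂[Real.cos z.im, Real.cos z.re, Real.sin z.re * Real.sin z.im]

@[simp] theorem cc_zero (z : ℂ) : cc z 0 = Real.cos z.im := by simp [cc]
@[simp] theorem cc_one (z : ℂ) : cc z 1 = Real.cos z.re := by simp [cc]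
@[simp] theorem cc_two (z : ℂ) : cc z 2 = Real.sin z.re * Real.sin z.im := by simp [cc]

theorem continuous_cc : Continuous cc := by
  unfold cc
  fun_prop

theorem cc_surf (z : ℂ) : cc z 2 ^ 2 = (1 - cc z 0 ^ 2) * (1 - cc z 1 ^ 2) := by
  rw [cc_zero, cc_one, cc_two, mul_pow, Real.sin_sq, Real.sin_sq]; ring

theorem cc_zero_sq (z : ℂ) : cc z 0 ^ 2 ≤ 1 := by rw [cc_zero]; exact Real.cos_sq_le_one _
theorem cc_one_sq (z : ℂ) : cc z 1 ^ 2 ≤ 1 := by rw [cc_one]; exact Real.cos_sq_le_one _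

theorem cc_ne (z : ℂ) : cc z ≠ 0 := by
  intro h
  have h0 : cc z 0 = 0 := by rw [h]; rfl
  have h1 : cc z 1 = 0 := by rw [h]; rfl
  have h2 : cc z 2 = 0 := by rw [h]; rfl
  have := cc_surf z
  rw [h0, h1, h2] at this
  norm_num at this

/-- the projection of the plane to the sphere -/
noncomputable def pr (z : ℂ) : S2 := dir (cc z) (cc_ne z)

theorem pr_coe (z : ℂ) : (pr z : V3) = ‖cc z‖⁻¹ • cc z := rfl

theorem norm_cc_pos (z : ℂ) : 0 < ‖cc z‖ := norm_pos_iff.mpr (cc_ne z)

theorem pr_apply (z : ℂ) (i : Fin 3) : (pr z : V3) i = ‖cc z‖⁻¹ * cc z i := rfl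

theorem cc_apply (z : ℂ) (i : Fin 3) : cc z i = ‖cc z‖ * (pr z : V3) i := by
  rw [pr_apply, mul_inv_cancel_left₀ (norm_cc_pos z).ne']

theorem continuous_pr : Continuous pr := by
  apply Continuous.subtype_mk
  exact Continuous.smul (continuous_cc.norm.inv₀ fun z => (norm_cc_pos z).ne') continuous_cc

/-- two proportional points of the pillow are equal -/
theorem cc_prop_aux {z z' : ℂ} {t : ℝ} (ht : 1 < t) (h : ∀ i, cc z' i = t * cc z i) : False := by
  have a := cc_surf z
  have b := cc_surf z'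
  have c0 := cc_zero_sq z'
  have c1 := cc_one_sq z'
  have d0 := cc_zero_sq z
  have d1 := cc_one_sq z
  rw [h 0, h 1, h 2] at b
  rw [h 0] at c0
  rw [h 1] at c1
  set X := cc z 0
  set Y := cc z 1
  set Z := cc z 2
  have t2 : 1 < t ^ 2 := by nlinarith
  have e1 : (1 - (t * X) ^ 2) * (1 - (t * Y) ^ 2) ≤ (1 - X ^ 2) * (1 - Y ^ 2) := by
    apply mul_le_mul
    · nlinarith [sq_nonneg X]
    · nlinarith [sq_nonneg Y]
    · linarith
    · linarith
  have hZ : Z ^ 2 = 0 := by nlinarith [sq_nonneg Z]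
  rw [hZ] at a
  rcases mul_eq_zero.mp a.symm with e | e
  · have : X ^ 2 = 1 := by linarith
    have : (t * X) ^ 2 = t ^ 2 := by rw [mul_pow, this, mul_one]
    linarith
  · have : Y ^ 2 = 1 := by linarith
    have : (t * Y) ^ 2 = t ^ 2 := by rw [mul_pow, this, mul_one]
    linarith

theorem pr_eq_iff_cc {z z' : ℂ} : pr z = pr z' ↔ cc z = cc z' := by
  constructor
  · intro h
    have h1 : ∀ i, ‖cc z‖⁻¹ * cc z i = ‖cc z'‖⁻¹ * cc z' i := by
      intro i
      rw [← pr_apply, ← pr_apply, h]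
    have p := norm_cc_pos z
    have p' := norm_cc_pos z'
    rcases lt_trichotomy (‖cc z‖) (‖cc z'‖) with hlt | heq | hgt
    · exfalso
      apply cc_prop_aux (z := z) (z' := z') (t := ‖cc z'‖ / ‖cc z‖)
      · rwa [one_lt_div p]
      · intro i
        have := h1 i
        field_simp at this ⊢
        linarith
    · have e : ∀ i, cc z i = cc z' i := by
        intro i
        have := h1 i
        rw [heq] at this
        exact mul_left_cancel₀ (inv_ne_zero p'.ne') this
      exact v3_ext (e 0) (e 1) (e 2)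
    · exfalso
      apply cc_prop_aux (z := z') (z' := z) (t := ‖cc z‖ / ‖cc z'‖)
      · rwa [one_lt_div p']
      · intro i
        have := h1 i
        field_simp at this ⊢
        linarith
  · intro h
    apply Subtype.ext
    rw [pr_coe, pr_coe, h]

/-- lattice vectors -/
noncomputable def lat (m n : ℤ) : ℂ := ⟨2 * Real.pi * m, 2 * Real.pi * n⟩

@[simp] theorem lat_re (m n : ℤ) : (lat m n).re = 2 * Real.pi * m := rfl
@[simp] theorem lat_im (m n : ℤ) : (lat m n).im = 2 * Real.pi * n := rfl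

theorem cc_add_lat (z : ℂ) (m n : ℤ) : cc (z + lat m n) = cc z := by
  have e1 : ∀ (x : ℝ) (k : ℤ), Real.cos (x + 2 * Real.pi * k) = Real.cos x := by
    intro x k
    rw [show x + 2 * Real.pi * k = x + k * (2 * Real.pi) by ring, Real.cos_add_int_mul_two_pi]
  have e2 : ∀ (x : ℝ) (k : ℤ), Real.sin (x + 2 * Real.pi * k) = Real.sin x := by
    intro x k
    rw [show x + 2 * Real.pi * k = x + k * (2 * Real.pi) by ring, Real.sin_add_int_mul_two_pi]
  apply v3_ext
  · simp [e1]
  · simp [e1]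
  · simp [e2]

theorem cc_neg (z : ℂ) : cc (-z) = cc z := by
  apply v3_ext <;> simp

theorem pr_add_lat (z : ℂ) (m n : ℤ) : pr (z + lat m n) = pr z :=
  pr_eq_iff_cc.mpr (cc_add_lat z m n)

theorem pr_neg (z : ℂ) : pr (-z) = pr z := pr_eq_iff_cc.mpr (cc_neg z)

theorem pr_eq_iff {z z' : ℂ} :
    pr z = pr z' ↔ (∃ m n : ℤ, z' = z + lat m n) ∨ ∃ m n : ℤ, z' = -z + lat m n := by
  constructor
  · intro h
    rw [pr_eq_iff_cc] at h
    have h0 : Real.cos z.im = Real.cos z'.im := by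
      have := congrArg (fun v : V3 => v 0) h; simpa using this
    have h1 : Real.cos z.re = Real.cos z'.re := by
      have := congrArg (fun v : V3 => v 1) h; simpa using this
    have h2 : Real.sin z.re * Real.sin z.im = Real.sin z'.re * Real.sin z'.im := by
      have := congrArg (fun v : V3 => v 2) h; simpa using this
    obtain ⟨n, hn⟩ := Real.cos_eq_cos_iff.mp h0
    obtain ⟨m, hm⟩ := Real.cos_eq_cos_iff.mp h1
    have s1 : ∀ (x : ℝ) (k : ℤ), Real.sin (2 * k * Real.pi + x) = Real.sin x := by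
      intro x k
      rw [show 2 * (k : ℝ) * Real.pi + x = x + k * (2 * Real.pi) by ring,
        Real.sin_add_int_mul_two_pi]
    have s2 : ∀ (x : ℝ) (k : ℤ), Real.sin (2 * k * Real.pi - x) = - Real.sin x := by
      intro x k
      rw [show 2 * (k : ℝ) * Real.pi - x = (-x) + k * (2 * Real.pi) by ring,
        Real.sin_add_int_mul_two_pi, Real.sin_neg]
    -- the mixed case
    have mixed : Real.sin z.re * Real.sin z.im = 0 →
        (∃ l : ℤ, z.re = l * Real.pi) ∨ ∃ l : ℤ, z.im = l * Real.pi := by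
      intro h3
      rcases mul_eq_zero.mp h3 with h4 | h4
      · left
        obtain ⟨l, hl⟩ := Real.sin_eq_zero_iff.mp h4
        exact ⟨l, hl.symm⟩
      · right
        obtain ⟨l, hl⟩ := Real.sin_eq_zero_iff.mp h4
        exact ⟨l, hl.symm⟩
    rcases hn with hn | hn <;> rcases hm with hm | hm
    · left
      refine ⟨m, n, ?_⟩
      apply Complex.ext
      · simp [hm]; ring
      · simp [hn]; ring
    · have h3 : Real.sin z.re * Real.sin z.im = 0 := by
        rw [hn, hm, s1, s2] at h2; linarith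
      rcases mixed h3 with ⟨l, hl⟩ | ⟨l, hl⟩
      · left
        refine ⟨m - l, n, ?_⟩
        apply Complex.ext
        · simp [hm, hl]; ring
        · simp [hn]; ring
      · right
        refine ⟨m, n + l, ?_⟩
        apply Complex.ext
        · simp [hm]; ring
        · simp [hn, hl]; ring
    · have h3 : Real.sin z.re * Real.sin z.im = 0 := by
        rw [hn, hm, s1, s2] at h2; linarith
      rcases mixed h3 with ⟨l, hl⟩ | ⟨l, hl⟩
      · right
        refine ⟨m + l, n, ?_⟩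
        apply Complex.ext
        · simp [hm, hl]; ring
        · simp [hn]; ring
      · left
        refine ⟨m, n - l, ?_⟩
        apply Complex.ext
        · simp [hm]; ring
        · simp [hn, hl]; ring
    · right
      refine ⟨m, n, ?_⟩
      apply Complex.ext
      · simp [hm]; ring
      · simp [hn]; ring
  · rintro (⟨m, n, rfl⟩ | ⟨m, n, rfl⟩)
    · rw [pr_add_lat]
    · rw [pr_add_lat, pr_neg]

theorem surj_aux {X Y Z : ℝ} (hs : X ^ 2 + Y ^ 2 + Z ^ 2 = 1) :
    ∃ r : ℝ, 0 < r ∧ (r * X) ^ 2 ≤ 1 ∧ (r * Y) ^ 2 ≤ 1 ∧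
      (√(1 - (r * X) ^ 2) * √(1 - (r * Y) ^ 2)) ^ 2 = (r * Z) ^ 2 := by
  have h4 : 0 ≤ 1 - 4 * X ^ 2 * Y ^ 2 := by
    have h5 : X ^ 2 + Y ^ 2 ≤ 1 := by nlinarith [sq_nonneg Z]
    nlinarith [sq_nonneg (X ^ 2 - Y ^ 2), sq_nonneg X, sq_nonneg Y]
  obtain ⟨s, hs0, hs2⟩ : ∃ s : ℝ, 0 ≤ s ∧ s ^ 2 = 1 - 4 * X ^ 2 * Y ^ 2 :=
    ⟨√(1 - 4 * X ^ 2 * Y ^ 2), Real.sqrt_nonneg _, Real.sq_sqrt h4⟩
  have h1s : 0 < 1 + s := by linarith
  obtain ⟨t, ht⟩ : ∃ t : ℝ, t = 2 / (1 + s) := ⟨_, rfl⟩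
  have ht0 : 0 < t := by rw [ht]; positivity
  have hteq : t ^ 2 * X ^ 2 * Y ^ 2 - t + 1 = 0 := by
    rw [ht]; field_simp
    linear_combination hs2
  have hle : ∀ U V : ℝ, U ^ 2 + V ^ 2 ≤ 1 → s ^ 2 = 1 - 4 * U ^ 2 * V ^ 2 → t * U ^ 2 ≤ 1 := by
    intro U V hUV hsU
    rw [ht, div_mul_eq_mul_div, div_le_one h1s]
    by_contra hcon
    push Not at hcon
    have h6 : s < 2 * U ^ 2 - 1 := by linarith
    have h7 : s ^ 2 < (2 * U ^ 2 - 1) ^ 2 := by nlinarith
    have h8 : 0 ≤ U ^ 2 * (1 - U ^ 2 - V ^ 2) := mul_nonneg (sq_nonneg U) (by linarith)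
    nlinarith
  have hX1 : t * X ^ 2 ≤ 1 := hle X Y (by nlinarith [sq_nonneg Z]) hs2
  have hY1 : t * Y ^ 2 ≤ 1 := hle Y X (by nlinarith [sq_nonneg Z]) (by rw [hs2]; ring)
  have hr2 : (√t) ^ 2 = t := Real.sq_sqrt ht0.le
  have hrX : (√t * X) ^ 2 ≤ 1 := by rw [mul_pow, hr2]; exact hX1
  have hrY : (√t * Y) ^ 2 ≤ 1 := by rw [mul_pow, hr2]; exact hY1
  refine ⟨√t, Real.sqrt_pos.mpr ht0, hrX, hrY, ?_⟩
  rw [mul_pow, Real.sq_sqrt (by linarith), Real.sq_sqrt (by linarith)]
  have : Z ^ 2 = 1 - X ^ 2 - Y ^ 2 := by linarith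
  rw [mul_pow, mul_pow, mul_pow, hr2, this]
  linear_combination hteq

theorem pr_surjective : Function.Surjective pr := by
  intro v
  obtain ⟨r, hr0, hrX, hrY, hprod⟩ := surj_aux (sum_sq v)
  have hrX' : -1 ≤ r * (v : V3) 0 ∧ r * (v : V3) 0 ≤ 1 := abs_le.mp (abs_le_one_iff_mul_self_le_one.mpr (by rw [← sq]; exact hrX))
  have hrY' : -1 ≤ r * (v : V3) 1 ∧ r * (v : V3) 1 ≤ 1 := abs_le.mp (abs_le_one_iff_mul_self_le_one.mpr (by rw [← sq]; exact hrY))
  have hfin : ∀ z : ℂ, cc z 0 = r * (v : V3) 0 → cc z 1 = r * (v : V3) 1 →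
      cc z 2 = r * (v : V3) 2 → ∃ z, pr z = v := by
    intro z h0 h1 h2
    refine ⟨z, ?_⟩
    have e : cc z = r • (v : V3) := v3_ext h0 h1 h2
    apply Subtype.ext
    rw [pr_coe, e, norm_smul, norm_S2, mul_one, Real.norm_eq_abs, abs_of_pos hr0, smul_smul,
      inv_mul_cancel₀ hr0.ne', one_smul]
  rcases sq_eq_sq_iff_eq_or_eq_neg.mp hprod with h | h
  · apply hfin ⟨Real.arccos (r * (v : V3) 1), Real.arccos (r * (v : V3) 0)⟩
    · rw [cc_zero]
      exact Real.cos_arccos hrX'.1 hrX'.2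
    · rw [cc_one]
      exact Real.cos_arccos hrY'.1 hrY'.2
    · rw [cc_two]
      change Real.sin (Real.arccos _) * Real.sin (Real.arccos _) = _
      rw [Real.sin_arccos, Real.sin_arccos, mul_comm]
      exact h
  · apply hfin ⟨Real.arccos (r * (v : V3) 1), -Real.arccos (r * (v : V3) 0)⟩
    · rw [cc_zero]
      change Real.cos (-Real.arccos _) = _
      rw [Real.cos_neg]
      exact Real.cos_arccos hrX'.1 hrX'.2
    · rw [cc_one]
      exact Real.cos_arccos hrY'.1 hrY'.2
    · rw [cc_two]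
      change Real.sin (Real.arccos _) * Real.sin (-Real.arccos _) = _
      rw [Real.sin_neg, Real.sin_arccos, Real.sin_arccos, mul_neg, mul_comm, h, neg_neg]

/-- every point is equivalent to a point of a compact square -/
theorem exists_box (z : ℂ) : ∃ z' : ℂ, ‖z'‖ ≤ 20 ∧ pr z' = pr z := by
  have hpi : 0 < 2 * Real.pi := by positivity
  set m := ⌊z.re / (2 * Real.pi)⌋
  set n := ⌊z.im / (2 * Real.pi)⌋
  refine ⟨z + lat (-m) (-n), ?_, pr_add_lat _ _ _⟩
  have h1 := Int.floor_le (z.re / (2 * Real.pi))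
  have h2 := Int.lt_floor_add_one (z.re / (2 * Real.pi))
  have h3 := Int.floor_le (z.im / (2 * Real.pi))
  have h4 := Int.lt_floor_add_one (z.im / (2 * Real.pi))
  rw [le_div_iff₀ hpi] at h1 h3
  rw [div_lt_iff₀ hpi] at h2 h4
  have hp4 := Real.pi_lt_d2
  have e1 : |(z + lat (-m) (-n)).re| ≤ 8 := by
    rw [Complex.add_re, lat_re, abs_le]
    push_cast
    constructor <;> nlinarith
  have e2 : |(z + lat (-m) (-n)).im| ≤ 8 := by
    rw [Complex.add_im, lat_im, abs_le]
    push_cast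
    constructor <;> nlinarith
  exact (Complex.norm_le_abs_re_add_abs_im _).trans (by linarith)

theorem isClosed_of_preimage {s : Set S2} (h : IsClosed (pr ⁻¹' s)) : IsClosed s := by
  have hc : IsCompact (Metric.closedBall (0 : ℂ) 20 ∩ pr ⁻¹' s) :=
    (isCompact_closedBall _ _).inter_right h
  have e : s = pr '' (Metric.closedBall (0 : ℂ) 20 ∩ pr ⁻¹' s) := by
    ext v
    constructor
    · intro hv
      obtain ⟨z, rfl⟩ := pr_surjective v
      obtain ⟨z', h1, h2⟩ := exists_box z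
      refine ⟨z', ⟨by simpa using h1, ?_⟩, h2⟩
      rw [mem_preimage, h2]; exact hv
    · rintro ⟨z, hz, rfl⟩
      exact hz.2
  rw [e]
  exact (hc.image continuous_pr).isClosed

theorem isOpen_of_preimage {s : Set S2} (h : IsOpen (pr ⁻¹' s)) : IsOpen s := by
  rw [← isClosed_compl_iff]
  apply isClosed_of_preimage
  rw [preimage_compl]
  exact h.isClosed_compl

theorem isOpenMap_pr : IsOpenMap pr := by
  intro V hV
  apply isOpen_of_preimage
  have e : pr ⁻¹' (pr '' V) = ⋃ m : ℤ, ⋃ n : ℤ,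
      ((fun z => z + lat m n) ⁻¹' V ∪ (fun z => -z + lat m n) ⁻¹' V) := by
    ext z
    simp only [mem_preimage, mem_iUnion, mem_union]
    constructor
    · rintro ⟨z', hz', h⟩
      rcases pr_eq_iff.mp h.symm with ⟨m, n, rfl⟩ | ⟨m, n, rfl⟩
      · exact ⟨m, n, Or.inl hz'⟩
      · exact ⟨m, n, Or.inr hz'⟩
    · rintro ⟨m, n, h | h⟩
      · exact ⟨_, h, pr_add_lat _ _ _⟩
      · exact ⟨_, h, by rw [pr_add_lat, pr_neg]⟩
  rw [e]
  refine isOpen_iUnion fun m => isOpen_iUnion fun n => ?_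
  exact (hV.preimage (by fun_prop)).union (hV.preimage (by fun_prop))

/-- multiplication by `(1 + √-7) / 2` -/
def AA (z : ℂ) : ℂ := ⟨-2 * z.im, z.re + z.im⟩

/-- the inverse of `AA` -/
noncomputable def AI (z : ℂ) : ℂ := ⟨z.im + z.re / 2, -(z.re / 2)⟩

@[simp] theorem AA_re (z : ℂ) : (AA z).re = -2 * z.im := rfl
@[simp] theorem AA_im (z : ℂ) : (AA z).im = z.re + z.im := rfl
@[simp] theorem AI_re (z : ℂ) : (AI z).re = z.im + z.re / 2 := rfl
@[simp] theorem AI_im (z : ℂ) : (AI z).im = -(z.re / 2) := rfl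

theorem AA_AI (z : ℂ) : AA (AI z) = z := by
  apply Complex.ext
  · simp; ring
  · simp

theorem AI_AA (z : ℂ) : AI (AA z) = z := by
  apply Complex.ext
  · simp; ring
  · simp; ring

theorem AA_neg (z : ℂ) : AA (-z) = -AA z := by
  apply Complex.ext
  · simp
  · simp; ring

theorem AI_neg (z : ℂ) : AI (-z) = -AI z := by
  apply Complex.ext
  · simp; ring
  · simp; ring

theorem AA_add (z w : ℂ) : AA (z + w) = AA z + AA w := by
  apply Complex.ext
  · simp; ring
  · simp; ring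

theorem AI_add (z w : ℂ) : AI (z + w) = AI z + AI w := by
  apply Complex.ext
  · simp; ring
  · simp; ring

theorem AA_lat (m n : ℤ) : AA (lat m n) = lat (-2 * n) (m + n) := by
  apply Complex.ext
  · simp; ring
  · simp; ring

theorem continuous_AA : Continuous AA := by
  have : AA = fun z : ℂ => Complex.equivRealProdCLM.symm (-2 * z.im, z.re + z.im) := by
    ext z
    apply Complex.ext <;> simp
  rw [this]
  exact Complex.equivRealProdCLM.symm.continuous.comp (by fun_prop)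

theorem continuous_AI : Continuous AI := by
  have : AI = fun z : ℂ => Complex.equivRealProdCLM.symm (z.im + z.re / 2, -(z.re / 2)) := by
    ext z
    apply Complex.ext <;> simp
  rw [this]
  exact Complex.equivRealProdCLM.symm.continuous.comp (by fun_prop)

/-- the vector `AI (lat 1 0)` -/
noncomputable def aa : ℂ := ⟨Real.pi, -Real.pi⟩

@[simp] theorem aa_re : aa.re = Real.pi := rfl
@[simp] theorem aa_im : aa.im = -Real.pi := rfl

theorem AI_lat (m n : ℤ) : AI (lat m n) = lat n 0 + m * aa := by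
  apply Complex.ext
  · simp; ring
  · simp; ring

theorem two_aa : (2 : ℂ) * aa = lat 1 (-1) := by
  apply Complex.ext
  · simp
  · simp

/-- the degree two map -/
noncomputable def ff (v : S2) : S2 := pr (AA (Function.surjInv pr_surjective v))

theorem pr_AA_congr {z z' : ℂ} (h : pr z = pr z') : pr (AA z) = pr (AA z') := by
  rcases pr_eq_iff.mp h with ⟨m, n, rfl⟩ | ⟨m, n, rfl⟩
  · rw [AA_add, AA_lat, pr_add_lat]
  · rw [AA_add, AA_lat, pr_add_lat, AA_neg, pr_neg]

theorem ff_pr (z : ℂ) : ff (pr z) = pr (AA z) :=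
  pr_AA_congr (Function.surjInv_eq pr_surjective (pr z))

theorem continuous_ff : Continuous ff := by
  rw [continuous_def]
  intro V hV
  apply isOpen_of_preimage
  have : pr ⁻¹' (ff ⁻¹' V) = (fun z => pr (AA z)) ⁻¹' V := by
    ext z
    rw [mem_preimage, mem_preimage, ff_pr]; rfl
  rw [this]
  exact hV.preimage (continuous_pr.comp continuous_AA)

theorem ff_surjective : Function.Surjective ff := by
  intro v
  obtain ⟨z, rfl⟩ := pr_surjective v
  refine ⟨pr (AI z), ?_⟩
  rw [ff_pr, AA_AI]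

theorem cc_add_aa (z : ℂ) : cc (z + aa) = g3 (cc z) := by
  apply v3_ext
  · simp only [cc_zero, g3]
    simp [← sub_eq_add_neg, Real.cos_sub_pi]
  · simp only [cc_one, g3]
    simp [Real.cos_add_pi]
  · simp only [cc_two, g3]
    simp [← sub_eq_add_neg, Real.sin_sub_pi, Real.sin_add_pi]

theorem pr_add_aa (z : ℂ) : pr (z + aa) = s3 (pr z) := by
  apply Subtype.ext
  rw [s3_coe, pr_coe, pr_coe, cc_add_aa, norm_g3, g3_smul]

theorem pr_add_int_aa (z : ℂ) (m : ℤ) : pr (z + m * aa) = pr z ∨ pr (z + m * aa) = s3 (pr z) := by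
  rcases Int.even_or_odd' m with ⟨k, rfl | rfl⟩
  · left
    have : z + ((2 * k : ℤ) : ℂ) * aa = z + lat k (-k) := by
      apply Complex.ext
      · simp; ring
      · simp; ring
    rw [this, pr_add_lat]
  · right
    have : z + ((2 * k + 1 : ℤ) : ℂ) * aa = (z + aa) + lat k (-k) := by
      apply Complex.ext
      · simp; ring
      · simp; ring
    rw [this, pr_add_lat, pr_add_aa]

theorem ff_s3 (v : S2) : ff (s3 v) = ff v := by
  obtain ⟨z, rfl⟩ := pr_surjective v
  rw [← pr_add_aa, ff_pr, ff_pr, AA_add]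
  have : AA aa = lat 1 0 := by
    apply Complex.ext
    · simp
    · simp
  rw [this, pr_add_lat]

/-- the fibres of `ff` -/
theorem ff_eq_iff {v v' : S2} : ff v = ff v' ↔ v' = v ∨ v' = s3 v := by
  constructor
  · intro h
    obtain ⟨z, rfl⟩ := pr_surjective v
    obtain ⟨z', rfl⟩ := pr_surjective v'
    rw [ff_pr, ff_pr] at h
    rcases pr_eq_iff.mp h with ⟨m, n, h⟩ | ⟨m, n, h⟩
    · have h2 := congrArg AI h
      rw [AI_AA, AI_add, AI_AA, AI_lat] at h2
      have h3 : z' = (z + m * aa) + lat n 0 := by rw [h2]; ring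
      rw [h3, pr_add_lat]
      exact pr_add_int_aa z m
    · have h2 := congrArg AI h
      rw [AI_AA, AI_add, AI_neg, AI_AA, AI_lat] at h2
      have h3 : z' = (-z + m * aa) + lat n 0 := by rw [h2]; ring
      rw [h3, pr_add_lat, ← pr_neg z]
      exact pr_add_int_aa (-z) m
  · rintro (rfl | rfl)
    · rfl
    · rw [ff_s3]

theorem isOpenMap_ff : IsOpenMap ff := by
  intro U hU
  have h1 : ff ⁻¹' (ff '' U) = U ∪ s3 ⁻¹' U := by
    ext v
    constructor
    · rintro ⟨u, hu, e⟩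
      rcases ff_eq_iff.mp e.symm with h | h
      · left; rw [← h]; exact hu
      · right; rw [mem_preimage, ← h]; exact hu
    · rintro (h | h)
      · exact ⟨v, h, rfl⟩
      · exact ⟨_, h, ff_s3 v⟩
  have h2 : IsOpen (ff ⁻¹' (ff '' U)) := by
    rw [h1]
    exact hU.union (hU.preimage s3.continuous)
  have hq : IsQuotientMap ff := (continuous_ff.isClosedMap).isQuotientMap continuous_ff ff_surjective
  exact hq.isOpen_preimage.mp h2

end Pool.Agent.Run7.h327.Tr
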