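import Mathlib
import Pool.Agent.Run7.h327.Th.Crit

/-!
# Square roots on the complement of a continuum

If a closed connected subset `T` of the sphere contains two antipodal points `p`, `q` and has a
connected complement `U`, then the double cover of the sphere branched over `p`, `q` is trivial
over `U`.
-/

set_option autoImplicit false

open Set Filter Topology

namespace Pool.Agent.Run7.h327.Tr

open Pool.Agent.Run7.h327.Th

/-- `g` has a continuous square root on `K` -/
def HasRoot (K : Set S2) (g : S2 → ℂ) : Prop :=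
  ∃ r : S2 → ℂ, ContinuousOn r K ∧ ∀ v ∈ K, r v ^ 2 = g v

theorem HasRoot.mul {K : Set S2} {g h : S2 → ℂ} (hg : HasRoot K g) (hh : HasRoot K h) :
    HasRoot K fun v => g v * h v := by
  obtain ⟨r, h1, h2⟩ := hg
  obtain ⟨s, h3, h4⟩ := hh
  refine ⟨fun v => r v * s v, h1.mul h3, fun v hv => ?_⟩
  rw [mul_pow, h2 v hv, h4 v hv]

theorem HasRoot.congr {K : Set S2} {g h : S2 → ℂ} (hg : HasRoot K g) (e : ∀ v ∈ K, g v = h v) :
    HasRoot K h := by
  obtain ⟨r, h1, h2⟩ := hg
  exact ⟨r, h1, fun v hv => by rw [h2 v hv, e v hv]⟩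

theorem HasRoot.const (K : Set S2) (c : ℂ) : HasRoot K fun _ => c := by
  obtain ⟨z, hz⟩ := IsAlgClosed.exists_pow_nat_eq c (n := 2) (by norm_num)
  exact ⟨fun _ => z, continuousOn_const, fun _ _ => hz⟩

theorem HasRoot.inv {K : Set S2} {g : S2 → ℂ} (hg : HasRoot K g) (h0 : ∀ v ∈ K, g v ≠ 0) :
    HasRoot K fun v => (g v)⁻¹ := by
  obtain ⟨r, h1, h2⟩ := hg
  refine ⟨fun v => (r v)⁻¹, h1.inv₀ fun v hv h => ?_, fun v hv => ?_⟩
  · apply h0 v hv
    rw [← h2 v hv, h]; norm_num
  · rw [inv_pow, h2 v hv]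

theorem hasRoot_near_one {K : Set S2} {g : S2 → ℂ} (hg : ContinuousOn g K)
    (h : ∀ v ∈ K, ‖g v‖ < 1) : HasRoot K fun v => 1 + g v := by
  have hs : ∀ v ∈ K, 1 + g v ∈ Complex.slitPlane := fun v hv =>
    Complex.mem_slitPlane_of_norm_lt_one (h v hv)
  refine ⟨fun v => Complex.exp (Complex.log (1 + g v) / 2), ?_, fun v hv => ?_⟩
  · apply Complex.continuous_exp.comp_continuousOn
    exact ((continuousOn_const.add hg).clog hs).div_const _
  · rw [← Complex.exp_nat_mul]
    rw [show ((2 : ℕ) : ℂ) * (Complex.log (1 + g v) / 2) = Complex.log (1 + g v) by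
      push_cast; ring]
    exact Complex.exp_log (Complex.slitPlane_ne_zero (hs v hv))

theorem one_add_ne {z : ℂ} (h : ‖z‖ < 1) : 1 + z ≠ 0 :=
  Complex.slitPlane_ne_zero (Complex.mem_slitPlane_of_norm_lt_one h)

/-- the height with respect to the axis `(1, -ε, 0) / √2` -/
noncomputable def hw (ε : ℝ) (v : S2) : ℝ := ((v : V3) 0 - ε * (v : V3) 1) / √2

/-- the coordinate that vanishes at the two points of the axis -/
def HH (ε : ℝ) (v : S2) : ℂ := ⟨(v : V3) 0 + ε * (v : V3) 1, (v : V3) 2⟩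

/-- a (stretched) stereographic projection -/
noncomputable def zt (ε : ℝ) (v : S2) : ℂ := HH ε v / ((1 - hw ε v : ℝ) : ℂ)

theorem continuous_hw (ε : ℝ) : Continuous (hw ε) := by
  unfold hw
  fun_prop

theorem continuous_HH (ε : ℝ) : Continuous (HH ε) := by
  have : HH ε = fun v : S2 => Complex.equivRealProdCLM.symm
      ((v : V3) 0 + ε * (v : V3) 1, (v : V3) 2) := by
    ext v
    apply Complex.ext <;> simp [HH]
  rw [this]
  exact Complex.equivRealProdCLM.symm.continuous.comp (by fun_prop)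

theorem hw_sq {ε : ℝ} (hε : ε ^ 2 = 1) (v : S2) :
    (HH ε v).re ^ 2 / 2 + (HH ε v).im ^ 2 + hw ε v ^ 2 = 1 := by
  have h := sum_sq v
  have h2 : (√2 : ℝ) ^ 2 = 2 := Real.sq_sqrt (by norm_num)
  unfold hw HH
  rw [div_pow, h2]
  simp only
  linear_combination h + ((v : V3) 1 ^ 2) * hε

theorem hw_le {ε : ℝ} (hε : ε ^ 2 = 1) (v : S2) : hw ε v ≤ 1 := by
  have := hw_sq hε v
  nlinarith [sq_nonneg (HH ε v).re, sq_nonneg (HH ε v).im, sq_nonneg (hw ε v - 1)]

theorem eq_of_hw_HH {ε : ℝ} (hε : ε ^ 2 = 1) {v v' : S2} (h1 : hw ε v = hw ε v')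
    (h2 : HH ε v = HH ε v') : v = v' := by
  have hs : (√2 : ℝ) ≠ 0 := by positivity
  have e1 : (v : V3) 0 - ε * (v : V3) 1 = (v' : V3) 0 - ε * (v' : V3) 1 := by
    unfold hw at h1
    field_simp at h1
    exact h1
  have e2 : (v : V3) 0 + ε * (v : V3) 1 = (v' : V3) 0 + ε * (v' : V3) 1 := congrArg Complex.re h2
  have e3 : (v : V3) 2 = (v' : V3) 2 := congrArg Complex.im h2
  apply Subtype.ext
  apply v3_ext
  · linarith
  · have : ε * (v : V3) 1 = ε * (v' : V3) 1 := by linarith
    have hε0 : ε ≠ 0 := by rintro rfl; norm_num at hε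
    exact mul_left_cancel₀ hε0 this
  · exact e3

theorem HH_of_hw {ε : ℝ} (hε : ε ^ 2 = 1) {v : S2} (h : hw ε v ^ 2 = 1) : HH ε v = 0 := by
  have := hw_sq hε v
  apply Complex.ext
  · simp only [Complex.zero_re]
    nlinarith [sq_nonneg (HH ε v).re, sq_nonneg (HH ε v).im]
  · simp only [Complex.zero_im]
    nlinarith [sq_nonneg (HH ε v).re, sq_nonneg (HH ε v).im]

theorem top_unique {ε : ℝ} (hε : ε ^ 2 = 1) {v v' : S2} (h : hw ε v = 1) (h' : hw ε v' = 1) :
    v = v' :=
  eq_of_hw_HH hε (by rw [h, h']) (by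
    rw [HH_of_hw hε (by rw [h]; norm_num), HH_of_hw hε (by rw [h']; norm_num)])

theorem one_sub_pos {ε : ℝ} (hε : ε ^ 2 = 1) {v : S2} (h : hw ε v ≠ 1) : 0 < 1 - hw ε v := by
  have := lt_of_le_of_ne (hw_le hε v) h
  linarith

theorem HH_eq {ε : ℝ} (hε : ε ^ 2 = 1) {v : S2} (h : hw ε v ≠ 1) :
    HH ε v = zt ε v * ((1 - hw ε v : ℝ) : ℂ) := by
  unfold zt
  rw [div_mul_cancel₀]
  exact_mod_cast (one_sub_pos hε h).ne'

theorem continuousOn_zt {ε : ℝ} (hε : ε ^ 2 = 1) : ContinuousOn (zt ε) {v | hw ε v ≠ 1} := by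
  apply ContinuousOn.div
  · exact (continuous_HH ε).continuousOn
  · exact (Complex.continuous_ofReal.comp (continuous_const.sub (continuous_hw ε))).continuousOn
  · intro v hv
    exact_mod_cast (one_sub_pos hε hv).ne'

theorem zt_key {ε : ℝ} (hε : ε ^ 2 = 1) {v : S2} (h : hw ε v ≠ 1) :
    (zt ε v).re ^ 2 / 2 + (zt ε v).im ^ 2 = (1 + hw ε v) / (1 - hw ε v) := by
  have h1 := hw_sq hε v
  have h2 := one_sub_pos hε h
  rw [HH_eq hε h, Complex.re_mul_ofReal, Complex.im_mul_ofReal] at h1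
  rw [eq_div_iff h2.ne']
  have h3 : (1 - hw ε v) * (((zt ε v).re ^ 2 / 2 + (zt ε v).im ^ 2) * (1 - hw ε v)) =
      (1 - hw ε v) * (1 + hw ε v) := by linear_combination h1
  exact mul_left_cancel₀ h2.ne' h3

theorem zt_injOn {ε : ℝ} (hε : ε ^ 2 = 1) {v v' : S2} (h : hw ε v ≠ 1) (h' : hw ε v' ≠ 1)
    (e : zt ε v = zt ε v') : v = v' := by
  have k := zt_key hε h
  have k' := zt_key hε h'
  rw [e, k'] at k
  have a := one_sub_pos hε h
  have a' := one_sub_pos hε h'
  rw [div_eq_div_iff a'.ne' a.ne'] at k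
  have hh : hw ε v = hw ε v' := by linarith
  exact eq_of_hw_HH hε hh (by rw [HH_eq hε h, HH_eq hε h', e, hh])

theorem zt_norm_ge {ε : ℝ} (hε : ε ^ 2 = 1) {v : S2} (h : hw ε v ≠ 1) :
    (1 + hw ε v) / (1 - hw ε v) ≤ ‖zt ε v‖ ^ 2 := by
  rw [← zt_key hε h, sq_norm']
  nlinarith [sq_nonneg (zt ε v).re]

/-- the relative version of the square root -/
theorem root_compact {ε : ℝ} (hε : ε ^ 2 = 1) {T K : Set S2} (hT : IsPreconnected T)
    (hK : IsCompact K) (hTK : Disjoint T K) {q p : S2} (hq : q ∈ T) (hq1 : hw ε q = 1)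
    (hp : p ∈ T) (hp1 : hw ε p = -1) : HasRoot K (zt ε) := by
  have hKw : ∀ v ∈ K, hw ε v ≠ 1 := by
    intro v hv h
    have := top_unique hε h hq1
    rw [this] at hv
    exact hTK.le_bot ⟨hq, hv⟩
  have hzK : ContinuousOn (zt ε) K := (continuousOn_zt hε).mono hKw
  have hopen1 : IsOpen {v : S2 | hw ε v ≠ 1} :=
    isOpen_ne_fun (continuous_hw ε) continuous_const
  have key := hT.induction₂
    (fun x y => ((hw ε x = 1 ∨ HasRoot K fun v => zt ε v - zt ε x) ↔
      (hw ε y = 1 ∨ HasRoot K fun v => zt ε v - zt ε y))) ?_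
    (fun x y z _ _ _ h1 h2 => h1.trans h2) (fun x y _ _ h1 => h1.symm) hq hp
  · have h1 := key.mp (Or.inl hq1)
    rcases h1 with h1 | h1
    · rw [hp1] at h1; norm_num at h1
    · have hp0 : zt ε p = 0 := by
        unfold zt
        rw [HH_of_hw hε (by rw [hp1]; norm_num), zero_div]
      refine h1.congr fun v _ => ?_
      rw [hp0, sub_zero]
  · intro x hx
    by_cases hx1 : hw ε x = 1
    · -- the point at infinity
      obtain ⟨M, hM⟩ := hK.exists_bound_of_continuousOn hzK
      have hM0 : ∃ M' : ℝ, 0 ≤ M' ∧ ∀ v ∈ K, ‖zt ε v‖ ≤ M' :=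
        ⟨max M 0, le_max_right _ _, fun v hv => (hM v hv).trans (le_max_left _ _)⟩
      obtain ⟨M, hM0, hM⟩ := hM0
      have hlim : ∀ᶠ y in 𝓝 x, (M ^ 2) * (1 - hw ε y) < 1 + hw ε y := by
        have c : ContinuousAt (fun y => (M ^ 2) * (1 - hw ε y)) x :=
          (continuous_const.mul (continuous_const.sub (continuous_hw ε))).continuousAt
        have c' : ContinuousAt (fun y => 1 + hw ε y) x :=
          (continuous_const.add (continuous_hw ε)).continuousAt
        apply c.eventually_lt c'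
        rw [hx1]; norm_num
      filter_upwards [hlim.filter_mono nhdsWithin_le_nhds] with y hy
      refine ⟨fun _ => ?_, fun _ => Or.inl hx1⟩
      by_cases hy1 : hw ε y = 1
      · exact Or.inl hy1
      · right
        have h2 := one_sub_pos hε hy1
        have h3 := zt_norm_ge hε hy1
        have h4 : M ^ 2 < ‖zt ε y‖ ^ 2 := by
          refine lt_of_lt_of_le ?_ h3
          rwa [lt_div_iff₀ h2]
        have h5 : M < ‖zt ε y‖ := lt_of_pow_lt_pow_left₀ 2 (norm_nonneg _) h4
        have h6 : zt ε y ≠ 0 := by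
          intro h
          rw [h, norm_zero] at h5
          linarith
        have h7 : ∀ v ∈ K, ‖-(zt ε v / zt ε y)‖ < 1 := by
          intro v hv
          rw [norm_neg, norm_div, div_lt_one (norm_pos_iff.mpr h6)]
          exact (hM v hv).trans_lt h5
        have h8 := (HasRoot.const K (-zt ε y)).mul
          (hasRoot_near_one (g := fun v => -(zt ε v / zt ε y)) ((hzK.div_const _).neg) h7)
        refine h8.congr fun v _ => ?_
        field_simp
        ring
    · -- a finite point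
      have hpos : ∀ v ∈ K, 0 < ‖zt ε v - zt ε x‖ := by
        intro v hv
        rw [norm_pos_iff, sub_ne_zero]
        intro h
        have := zt_injOn hε (hKw v hv) hx1 h
        rw [this] at hv
        exact hTK.le_bot ⟨hx, hv⟩
      obtain ⟨δ, hδ, hδ'⟩ := hK.exists_forall_le' (hzK.sub continuousOn_const).norm hpos
      have hcx : ContinuousAt (zt ε) x := (continuousOn_zt hε).continuousAt (hopen1.mem_nhds hx1)
      have hnear : ∀ᶠ y in 𝓝 x, ‖zt ε y - zt ε x‖ < δ := by
        have c : ContinuousAt (fun y => ‖zt ε y - zt ε x‖) x := (hcx.sub continuousAt_const).norm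
        apply c.eventually_lt continuousAt_const
        simpa using hδ
      filter_upwards [(hnear.and (hopen1.mem_nhds hx1)).filter_mono nhdsWithin_le_nhds] with y hy
      obtain ⟨hy1, hy2⟩ := hy
      have hy2' : hw ε y ≠ 1 := hy2
      have h7 : ∀ v ∈ K, ‖-((zt ε y - zt ε x) / (zt ε v - zt ε x))‖ < 1 := by
        intro v hv
        rw [norm_neg, norm_div, div_lt_one (hpos v hv)]
        exact hy1.trans_le (hδ' v hv)
      have hroot := hasRoot_near_one (g := fun v => -((zt ε y - zt ε x) / (zt ε v - zt ε x)))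
        ((continuousOn_const.div (hzK.sub continuousOn_const)
          fun v hv => norm_pos_iff.mp (hpos v hv)).neg) h7
      have hne : ∀ v ∈ K, zt ε v - zt ε x ≠ 0 := fun v hv => norm_pos_iff.mp (hpos v hv)
      constructor
      · rintro (h | h)
        · exact absurd h hx1
        · right
          refine (h.mul hroot).congr fun v hv => ?_
          have := hne v hv
          field_simp
          ring
      · rintro (h | h)
        · exact absurd h hy2'
        · right
          refine (h.mul (hroot.inv fun v hv => one_add_ne (h7 v hv))).congr fun v hv => ?_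
          have a1 := hne v hv
          have a2 := one_add_ne (h7 v hv)
          have a3 : 1 + -((zt ε y - zt ε x) / (zt ε v - zt ε x)) =
              (zt ε v - zt ε y) / (zt ε v - zt ε x) := by
            field_simp
            ring
          rw [a3] at a2 ⊢
          have a4 : zt ε v - zt ε y ≠ 0 := fun h => a2 (by rw [h, zero_div])
          rw [inv_div]
          field_simp

/-- gluing square roots -/
theorem root_glue {U : Set S2} (hU : IsOpen U) (hUc : IsConnected U) {g : S2 → ℂ}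
    (hg0 : ∀ v ∈ U, g v ≠ 0) (h : ∀ K ⊆ U, IsCompact K → HasRoot K g) : HasRoot U g := by
  classical
  have : LocallyPathConnectedSpace S2 :=
    ChartedSpace.locallyPathConnectedSpace (EuclideanSpace ℝ (Fin 2)) _
  obtain ⟨v₀, hv₀⟩ := hUc.nonempty
  obtain ⟨w₀, hw₀⟩ := IsAlgClosed.exists_pow_nat_eq (g v₀) (n := 2) (by norm_num)
  -- normalized roots
  have hnorm : ∀ K ⊆ U, IsCompact K → v₀ ∈ K →
      ∃ r : S2 → ℂ, ContinuousOn r K ∧ (∀ v ∈ K, r v ^ 2 = g v) ∧ r v₀ = w₀ := by
    intro K hK hKc hvK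
    obtain ⟨r, h1, h2⟩ := h K hK hKc
    have h3 : r v₀ ^ 2 = w₀ ^ 2 := by rw [h2 v₀ hvK, hw₀]
    rcases sq_eq_sq_iff_eq_or_eq_neg.mp h3 with h4 | h4
    · exact ⟨r, h1, h2, h4⟩
    · refine ⟨fun v => -r v, h1.neg, fun v hv => ?_, ?_⟩
      · rw [neg_sq, h2 v hv]
      · change -r v₀ = w₀
        rw [h4, neg_neg]
  have huniq : ∀ K ⊆ U, IsPreconnected K → v₀ ∈ K → ∀ r r' : S2 → ℂ, ContinuousOn r K →
      ContinuousOn r' K → (∀ v ∈ K, r v ^ 2 = g v) → (∀ v ∈ K, r' v ^ 2 = g v) →
      r v₀ = r' v₀ → EqOn r r' K := by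
    intro K hK hKc hvK r r' c c' e e' h0
    refine hKc.eq_of_sq_eq c c' ?_ ?_ hvK h0
    · intro v hv
      simp only [Pi.pow_apply]
      rw [e v hv, e' v hv]
    · intro v hv h3
      apply hg0 v (hK hv)
      rw [← e' v hv, h3]; norm_num
  have hpath : ∀ v ∈ U, ∃ K : Set S2, K ⊆ U ∧ IsCompact K ∧ IsPreconnected K ∧ v₀ ∈ K ∧ v ∈ K := by
    intro v hv
    have hpc := (hU.isConnected_iff_isPathConnected).mp hUc
    obtain ⟨γ, hγ⟩ := hpc.joinedIn v₀ hv₀ v hv
    refine ⟨range γ, ?_, isCompact_range γ.continuous, isPreconnected_range γ.continuous,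
      ⟨0, γ.source⟩, ⟨1, γ.target⟩⟩
    rintro _ ⟨t, rfl⟩
    exact hγ t
  choose! KK hK1 hK2 hK3 hK4 hK5 using hpath
  have hroots : ∀ v ∈ U, ∃ r : S2 → ℂ, ContinuousOn r (KK v) ∧ (∀ u ∈ KK v, r u ^ 2 = g u) ∧
      r v₀ = w₀ := fun v hv => hnorm _ (hK1 v hv) (hK2 v hv) (hK4 v hv)
  choose! rr hr1 hr2 hr3 using hroots
  -- comparison with an arbitrary compact connected set
  have hcomp : ∀ K ⊆ U, IsCompact K → IsPreconnected K → v₀ ∈ K → ∀ r : S2 → ℂ,
      ContinuousOn r K → (∀ v ∈ K, r v ^ 2 = g v) → r v₀ = w₀ → ∀ v ∈ K, rr v v = r v := by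
    intro K hK hKc hKp hvK r c e h0 v hv
    have hvU := hK hv
    obtain ⟨s, s1, s2, s3⟩ := hnorm (K ∪ KK v) (union_subset hK (hK1 v hvU))
      (hKc.union (hK2 v hvU)) (Or.inl hvK)
    have e1 : EqOn s r K := huniq K hK hKp hvK s r (s1.mono subset_union_left) c
      (fun u hu => s2 u (Or.inl hu)) e (by rw [s3, h0])
    have e2 : EqOn s (rr v) (KK v) := huniq (KK v) (hK1 v hvU) (hK3 v hvU) (hK4 v hvU) s (rr v)
      (s1.mono subset_union_right) (hr1 v hvU) (fun u hu => s2 u (Or.inr hu)) (hr2 v hvU)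
      (by rw [s3, hr3 v hvU])
    rw [← e2 (hK5 v hvU), e1 hv]
  refine ⟨fun v => rr v v, ?_, fun v hv => hr2 v hv v (hK5 v hv)⟩
  intro v hv
  -- a compact connected neighbourhood
  obtain ⟨W, hW, hWU⟩ := (closed_nhds_basis v).mem_iff.mp (hU.mem_nhds hv)
  obtain ⟨N, ⟨hNo, hvN, hNc⟩, hNW⟩ :=
    (LocallyConnectedSpace.open_connected_basis v).mem_iff.mp hW.1
  have hclN : closure N ⊆ U := (closure_minimal hNW hW.2).trans hWU
  set K := closure N ∪ KK v with hK
  have hKU : K ⊆ U := union_subset hclN (hK1 v hv)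
  have hKc : IsCompact K := (isClosed_closure.isCompact).union (hK2 v hv)
  have hKp : IsPreconnected K :=
    hNc.isPreconnected.closure.union v (subset_closure hvN) (hK5 v hv) (hK3 v hv)
  have hvK : v₀ ∈ K := Or.inr (hK4 v hv)
  obtain ⟨r, r1, r2, r3⟩ := hnorm K hKU hKc hvK
  have hKn : K ∈ 𝓝 v := mem_of_superset (hNo.mem_nhds hvN)
    (subset_closure.trans subset_union_left)
  have hcr : ContinuousAt r v := r1.continuousAt hKn
  have hev : (fun v => rr v v) =ᶠ[𝓝 v] r := by
    filter_upwards [hKn] with u hu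
    exact hcomp K hKU hKc hKp hvK r r1 r2 r3 u hu
  exact (hcr.congr hev.symm).continuousWithinAt

/-- the main statement of this file -/
theorem root_main {ε : ℝ} (hε : ε ^ 2 = 1) {T : Set S2} (hTc : IsClosed T)
    (hT : IsPreconnected T) (hU : IsConnected Tᶜ) {q p : S2} (hq : q ∈ T) (hq1 : hw ε q = 1)
    (hp : p ∈ T) (hp1 : hw ε p = -1) : HasRoot Tᶜ (HH ε) := by
  have hUw : ∀ v ∈ Tᶜ, hw ε v ≠ 1 := by
    intro v hv h
    have := top_unique hε h hq1
    rw [this] at hv
    exact hv hq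
  have h1 : HasRoot Tᶜ (zt ε) := by
    refine root_glue hTc.isOpen_compl hU ?_ ?_
    · intro v hv h0
      have hk := zt_key hε (hUw v hv)
      rw [h0] at hk
      simp only [Complex.zero_re, Complex.zero_im] at hk
      have h2 := one_sub_pos hε (hUw v hv)
      have h3 : hw ε v = -1 := by
        have : (1 + hw ε v) / (1 - hw ε v) = 0 := by rw [← hk]; norm_num
        rcases div_eq_zero_iff.mp this with h | h
        · linarith
        · linarith
      have h4 : HH ε v = HH ε p := by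
        rw [HH_of_hw hε (by rw [h3]; norm_num), HH_of_hw hε (by rw [hp1]; norm_num)]
      have := eq_of_hw_HH hε (by rw [h3, hp1]) h4
      rw [this] at hv
      exact hv hp
    · intro K hK hKc
      exact root_compact hε hT hKc (disjoint_left.mpr fun x hx hx' => hK hx' hx) hq hq1 hp hp1
  have h2 : HasRoot Tᶜ (fun v => ((1 - hw ε v : ℝ) : ℂ)) := by
    refine ⟨fun v => ((√(1 - hw ε v) : ℝ) : ℂ), ?_, fun v hv => ?_⟩
    · exact (Complex.continuous_ofReal.comp (Real.continuous_sqrt.comp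
        (continuous_const.sub (continuous_hw ε)))).continuousOn
    · rw [← Complex.ofReal_pow, Real.sq_sqrt (one_sub_pos hε (hUw v hv)).le]
  exact (h1.mul h2).congr fun v hv => (HH_eq hε (hUw v hv)).symm

end Pool.Agent.Run7.h327.Tr
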