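import Mathlib
import Pool.Agent.Run7.h327.Tr.Pl
import Pool.Agent.Run7.h327.Tr.Root

/-!
# The parity argument

The map `ff` leaves three double covers of the sphere invariant. A domain `U = S² ∖ T` with
`ff⁻¹(U) ⊆ U` over which these double covers are trivial gives three sign characters of the two
sheets of `ff⁻¹(U)`; each of them has to separate the two sheets, which is impossible.
-/

set_option autoImplicit false

open Set Filter Topology

namespace Pool.Agent.Run7.h327.Tr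

open Pool.Agent.Run7.h327.Th

/-- a sign function over `U` -/
structure IsSign (U : Set S2) (φ : ℂ → ℂ) (s χ : ℂ) : Prop where
  cont : ContinuousOn φ (pr ⁻¹' U)
  sq : ∀ z, pr z ∈ U → φ z ^ 2 = 1
  neg : ∀ z, φ (-z) = s * φ z
  tr1 : ∀ z, φ (z + lat 1 0) = χ * φ z
  tr2 : ∀ z, φ (z + lat 0 1) = χ * φ z
  hs : s ^ 2 = 1
  hχ : χ ^ 2 = 1

theorem IsSign.mul {U : Set S2} {φ φ' : ℂ → ℂ} {s χ s' χ' : ℂ} (h : IsSign U φ s χ)
    (h' : IsSign U φ' s' χ') : IsSign U (fun z => φ z * φ' z) (s * s') (χ * χ') where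
  cont := h.cont.mul h'.cont
  sq z hz := by rw [mul_pow, h.sq z hz, h'.sq z hz, one_mul]
  neg z := by rw [h.neg, h'.neg]; ring
  tr1 z := by rw [h.tr1, h'.tr1]; ring
  tr2 z := by rw [h.tr2, h'.tr2]; ring
  hs := by rw [mul_pow, h.hs, h'.hs, one_mul]
  hχ := by rw [mul_pow, h.hχ, h'.hχ, one_mul]

/-- construction of sign functions from square roots -/
theorem isSign_of_root {U : Set S2} {ε : ℝ} {r : S2 → ℂ} (hr : ContinuousOn r U)
    (hr2 : ∀ v ∈ U, r v ^ 2 = HH ε v) {R : ℂ → ℂ} (hR : Continuous R)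
    (hR2 : ∀ z, R z ^ 2 = ((‖cc z‖ / 2 : ℝ) : ℂ) * HH ε (pr z))
    (h0 : ∀ v ∈ U, HH ε v ≠ 0) {s χ : ℂ} (hs : s ^ 2 = 1) (hχ : χ ^ 2 = 1)
    (hneg : ∀ z, R (-z) = s * R z) (h1 : ∀ z, R (z + lat 1 0) = χ * R z)
    (h2 : ∀ z, R (z + lat 0 1) = χ * R z) :
    ∃ φ : ℂ → ℂ, IsSign U φ s χ := by
  have hRne : ∀ z, pr z ∈ U → R z ≠ 0 := by
    intro z hz h
    have := hR2 z
    rw [h] at this
    have h3 : ((‖cc z‖ / 2 : ℝ) : ℂ) ≠ 0 := by
      have := norm_cc_pos z
      exact_mod_cast (by positivity : ‖cc z‖ / 2 ≠ 0)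
    exact (mul_ne_zero h3 (h0 _ hz)) (by rw [← this]; norm_num)
  have hs' : s⁻¹ = s := inv_eq_of_mul_eq_one_right (by rw [← sq]; exact hs)
  have hχ' : χ⁻¹ = χ := inv_eq_of_mul_eq_one_right (by rw [← sq]; exact hχ)
  refine ⟨fun z => r (pr z) * ((√(‖cc z‖ / 2) : ℝ) : ℂ) / R z, ?_, ?_, ?_, ?_, ?_, hs, hχ⟩
  · apply ContinuousOn.div
    · apply ContinuousOn.mul
      · exact hr.comp continuous_pr.continuousOn fun z hz => hz
      · exact (Complex.continuous_ofReal.comp (Real.continuous_sqrt.comp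
          (continuous_cc.norm.div_const _))).continuousOn
    · exact hR.continuousOn
    · exact hRne
  · intro z hz
    have hn := norm_cc_pos z
    rw [div_pow, mul_pow, hr2 _ hz, ← Complex.ofReal_pow, Real.sq_sqrt (by positivity), hR2,
      mul_comm, div_self]
    refine mul_ne_zero ?_ (h0 _ hz)
    exact_mod_cast (by positivity : ‖cc z‖ / 2 ≠ 0)
  · intro z
    rw [pr_neg, cc_neg, hneg, div_mul_eq_div_div, div_right_comm, div_eq_mul_inv, hs', mul_comm]
  · intro z
    rw [pr_add_lat, cc_add_lat, h1, mul_comm χ, div_mul_eq_div_div, div_eq_mul_inv _ χ, hχ',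
      mul_comm]
  · intro z
    rw [pr_add_lat, cc_add_lat, h2, mul_comm χ, div_mul_eq_div_div, div_eq_mul_inv _ χ, hχ',
      mul_comm]

/-- invariance under the group from the generators -/
theorem inv_of_gen {U : Set S2} {τ : ℂ → ℂ} (h1 : ∀ z, pr z ∈ U → τ (-z) = τ z)
    (h2 : ∀ z, pr z ∈ U → τ (z + lat 1 0) = τ z) (h3 : ∀ z, pr z ∈ U → τ (z + lat 0 1) = τ z)
    {z z' : ℂ} (hz : pr z ∈ U) (h : pr z = pr z') : τ z = τ z' := by
  have k1 : ∀ m : ℤ, ∀ z, pr z ∈ U → τ (z + lat m 0) = τ z := by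
    intro m
    induction m using Int.induction_on with
    | zero =>
      intro z _
      have : z + lat 0 0 = z := by apply Complex.ext <;> simp
      rw [this]
    | succ i ih =>
      intro z hz
      have e : z + lat (i + 1) 0 = (z + lat i 0) + lat 1 0 := by
        apply Complex.ext
        · simp; ring
        · simp
      rw [e, h2 _ (by rw [pr_add_lat]; exact hz), ih z hz]
    | pred i ih =>
      intro z hz
      have e : z + lat (-i) 0 = (z + lat (-i - 1) 0) + lat 1 0 := by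
        apply Complex.ext
        · simp; ring
        · simp
      rw [← ih z hz, e, h2 _ (by rw [pr_add_lat]; exact hz)]
  have k2 : ∀ n : ℤ, ∀ z, pr z ∈ U → τ (z + lat 0 n) = τ z := by
    intro m
    induction m using Int.induction_on with
    | zero =>
      intro z _
      have : z + lat 0 0 = z := by apply Complex.ext <;> simp
      rw [this]
    | succ i ih =>
      intro z hz
      have e : z + lat 0 (i + 1) = (z + lat 0 i) + lat 0 1 := by
        apply Complex.ext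
        · simp
        · simp; ring
      rw [e, h3 _ (by rw [pr_add_lat]; exact hz), ih z hz]
    | pred i ih =>
      intro z hz
      have e : z + lat 0 (-i) = (z + lat 0 (-i - 1)) + lat 0 1 := by
        apply Complex.ext
        · simp
        · simp; ring
      rw [← ih z hz, e, h3 _ (by rw [pr_add_lat]; exact hz)]
  have k3 : ∀ (m n : ℤ) (z : ℂ), pr z ∈ U → τ (z + lat m n) = τ z := by
    intro m n z hz
    have e : z + lat m n = (z + lat m 0) + lat 0 n := by
      apply Complex.ext <;> simp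
    rw [e, k2 n _ (by rw [pr_add_lat]; exact hz), k1 m z hz]
  rcases pr_eq_iff.mp h with ⟨m, n, rfl⟩ | ⟨m, n, rfl⟩
  · rw [k3 m n z hz]
  · rw [k3 m n (-z) (by rw [pr_neg]; exact hz), h1 z hz]

theorem eq_of_sq_one {x y : ℂ} (hx : x ^ 2 = 1) (hy : y ^ 2 = 1) (h : ‖x - y‖ < 2) : x = y := by
  have h1 : x ^ 2 = y ^ 2 := by rw [hx, hy]
  rcases sq_eq_sq_iff_eq_or_eq_neg.mp h1 with h2 | h2
  · exact h2
  · exfalso
    have hn : ‖y‖ = 1 := by
      have := congrArg norm hy
      rw [norm_pow, norm_one] at this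
      nlinarith [norm_nonneg y]
    have h3 : x - y = -(2 * y) := by rw [h2]; ring
    rw [h3, norm_neg, norm_mul, hn] at h
    norm_num at h

theorem const_of_inv {U : Set S2} (hUo : IsOpen U) (hU : IsPreconnected U) {τ : ℂ → ℂ}
    (hc : ContinuousOn τ (pr ⁻¹' U)) (hsq : ∀ z, pr z ∈ U → τ z ^ 2 = 1)
    (hinv : ∀ z z', pr z ∈ U → pr z = pr z' → τ z = τ z') {z z' : ℂ} (hz : pr z ∈ U)
    (hz' : pr z' ∈ U) : τ z = τ z' := by
  have key := hU.induction₂ (fun x y => ∀ w w', pr w = x → pr w' = y → τ w = τ w') ?_ ?_ ?_ hz hz'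
  · exact key z z' rfl rfl
  · intro x hx
    obtain ⟨w, rfl⟩ := pr_surjective x
    have hcw : ContinuousAt τ w :=
      hc.continuousAt ((hUo.preimage continuous_pr).mem_nhds hx)
    have h1 : ∀ᶠ u in 𝓝 w, ‖τ w - τ u‖ < 2 ∧ pr u ∈ U := by
      have c : ContinuousAt (fun u => ‖τ w - τ u‖) w := (continuousAt_const.sub hcw).norm
      refine (c.eventually_lt continuousAt_const ?_).and
        ((hUo.preimage continuous_pr).mem_nhds hx)
      simp
    obtain ⟨O, hO, hOo, hwO⟩ := eventually_nhds_iff.mp h1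
    have h2 : pr '' O ∈ 𝓝 (pr w) := (isOpenMap_pr O hOo).mem_nhds ⟨w, hwO, rfl⟩
    filter_upwards [mem_nhdsWithin_of_mem_nhds h2] with y hy
    obtain ⟨u, hu, rfl⟩ := hy
    intro w1 w2 e1 e2
    rw [← hinv w w1 hx e1.symm, ← hinv u w2 (hO u hu).2 e2.symm]
    exact eq_of_sq_one (hsq _ hx) (hsq _ (hO u hu).2) (hO u hu).1
  · intro x y y' _ hy _ h1 h2 w w' e e'
    obtain ⟨u, rfl⟩ := pr_surjective y
    rw [h1 w u e rfl, h2 u w' rfl e']
  · intro x y _ _ h1 w w' e e'
    rw [h1 w' w e' e]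

/-- the quadratic form that `AA` doubles -/
noncomputable def Q (z : ℂ) : ℝ := z.re ^ 2 + z.re * z.im + 2 * z.im ^ 2

theorem Q_AA (z : ℂ) : Q (AA z) = 2 * Q z := by
  unfold Q; simp; ring

theorem Q_AI (z : ℂ) : Q (AI z) = Q z / 2 := by
  unfold Q; simp; ring

theorem Q_AI_iter (n : ℕ) (z : ℂ) : Q (AI^[n] z) = Q z / 2 ^ n := by
  induction n with
  | zero => simp
  | succ n ih => rw [Function.iterate_succ_apply', Q_AI, ih, pow_succ]; field_simp

theorem norm_sq_le_Q (z : ℂ) : ‖z‖ ^ 2 ≤ 2 * Q z := by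
  rw [sq_norm']; unfold Q
  nlinarith [sq_nonneg (z.re + z.im), sq_nonneg z.im]

theorem Q_le (z : ℂ) : Q z ≤ 3 * ‖z‖ ^ 2 := by
  rw [sq_norm']; unfold Q
  nlinarith [sq_nonneg (z.re - z.im), sq_nonneg z.re, sq_nonneg z.im]

theorem norm_AI_iter (n : ℕ) (z : ℂ) : ‖AI^[n] z‖ ^ 2 ≤ 6 * ‖z‖ ^ 2 / 2 ^ n := by
  have h1 := norm_sq_le_Q (AI^[n] z)
  rw [Q_AI_iter] at h1
  have h2 := Q_le z
  have h3 : (0 : ℝ) < 2 ^ n := by positivity
  calc ‖AI^[n] z‖ ^ 2 ≤ 2 * (Q z / 2 ^ n) := h1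
    _ = 2 * Q z / 2 ^ n := by ring
    _ ≤ 6 * ‖z‖ ^ 2 / 2 ^ n := div_le_div_of_nonneg_right (by linarith) h3.le

theorem AI_sub (z w : ℂ) : AI (z - w) = AI z - AI w := by
  rw [sub_eq_add_neg, AI_add, AI_neg, ← sub_eq_add_neg]

theorem AI_iter_sub (n : ℕ) (z w : ℂ) : AI^[n] (z - w) = AI^[n] z - AI^[n] w := by
  induction n with
  | zero => simp
  | succ n ih =>
    rw [Function.iterate_succ_apply', ih, AI_sub, ← Function.iterate_succ_apply' AI,
      ← Function.iterate_succ_apply' AI]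

theorem AI_AA_iter (n : ℕ) (z : ℂ) : AI^[n] (AA^[n] z) = z := by
  induction n generalizing z with
  | zero => simp
  | succ n ih =>
    rw [Function.iterate_succ_apply', Function.iterate_succ_apply AA, ih, AI_AA]

theorem IsSign.even {U : Set S2} {φ : ℂ → ℂ} {s χ : ℂ} (h : IsSign U φ s χ) (m n : ℤ) (z : ℂ) :
    φ (z + lat (2 * m) (2 * n)) = φ z := by
  have hh : χ * χ = 1 := by rw [← pow_two]; exact h.hχ
  have k1 : ∀ m : ℤ, ∀ z, φ (z + lat (2 * m) 0) = φ z := by
    have e : ∀ z, φ (z + lat 2 0) = φ z := by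
      intro z
      have : z + lat 2 0 = (z + lat 1 0) + lat 1 0 := by
        apply Complex.ext
        · simp; ring
        · simp
      rw [this, h.tr1, h.tr1, ← mul_assoc, hh, one_mul]
    intro m
    induction m using Int.induction_on with
    | zero =>
      intro z
      have : z + lat (2 * 0) 0 = z := by apply Complex.ext <;> simp
      rw [this]
    | succ i ih =>
      intro z
      have e' : z + lat (2 * (i + 1)) 0 = (z + lat (2 * i) 0) + lat 2 0 := by
        apply Complex.ext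
        · simp; ring
        · simp
      rw [e', e, ih]
    | pred i ih =>
      intro z
      have e' : z + lat (2 * (-i)) 0 = (z + lat (2 * (-i - 1)) 0) + lat 2 0 := by
        apply Complex.ext
        · simp; ring
        · simp
      rw [← ih z, e', e]
  have k2 : ∀ m : ℤ, ∀ z, φ (z + lat 0 (2 * m)) = φ z := by
    have e : ∀ z, φ (z + lat 0 2) = φ z := by
      intro z
      have : z + lat 0 2 = (z + lat 0 1) + lat 0 1 := by
        apply Complex.ext
        · simp
        · simp; ring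
      rw [this, h.tr2, h.tr2, ← mul_assoc, hh, one_mul]
    intro m
    induction m using Int.induction_on with
    | zero =>
      intro z
      have : z + lat 0 (2 * 0) = z := by apply Complex.ext <;> simp
      rw [this]
    | succ i ih =>
      intro z
      have e' : z + lat 0 (2 * (i + 1)) = (z + lat 0 (2 * i)) + lat 0 2 := by
        apply Complex.ext
        · simp
        · simp; ring
      rw [e', e, ih]
    | pred i ih =>
      intro z
      have e' : z + lat 0 (2 * (-i)) = (z + lat 0 (2 * (-i - 1))) + lat 0 2 := by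
        apply Complex.ext
        · simp
        · simp; ring
      rw [← ih z, e', e]
  have e : z + lat (2 * m) (2 * n) = (z + lat (2 * m) 0) + lat 0 (2 * n) := by
    apply Complex.ext <;> simp
  rw [e, k2, k1]

/-- approximation by the even lattice -/
theorem exists_even (y u : ℂ) : ∃ m n : ℤ, ‖y + lat (2 * m) (2 * n) - u‖ ≤ 30 := by
  have hpi : 0 < 4 * Real.pi := by positivity
  refine ⟨⌊(u.re - y.re) / (4 * Real.pi)⌋, ⌊(u.im - y.im) / (4 * Real.pi)⌋, ?_⟩
  set m := ⌊(u.re - y.re) / (4 * Real.pi)⌋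
  set n := ⌊(u.im - y.im) / (4 * Real.pi)⌋
  have h1 := Int.floor_le ((u.re - y.re) / (4 * Real.pi))
  have h2 := Int.lt_floor_add_one ((u.re - y.re) / (4 * Real.pi))
  have h3 := Int.floor_le ((u.im - y.im) / (4 * Real.pi))
  have h4 := Int.lt_floor_add_one ((u.im - y.im) / (4 * Real.pi))
  rw [le_div_iff₀ hpi] at h1 h3
  rw [div_lt_iff₀ hpi] at h2 h4
  have hp4 := Real.pi_lt_d2
  have e1 : |(y + lat (2 * m) (2 * n) - u).re| ≤ 15 := by
    rw [Complex.sub_re, Complex.add_re, lat_re, abs_le]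
    push_cast
    constructor <;> nlinarith
  have e2 : |(y + lat (2 * m) (2 * n) - u).im| ≤ 15 := by
    rw [Complex.sub_im, Complex.add_im, lat_im, abs_le]
    push_cast
    constructor <;> nlinarith
  exact (Complex.norm_le_abs_re_add_abs_im _).trans (by linarith)

/-- a sign function that is (anti-)invariant under `AI` is trivial -/
theorem IsSign.trivial {U : Set S2} (hUo : IsOpen U) (hUne : U.Nonempty)
    (hback : ∀ z, pr z ∈ U → pr (AI z) ∈ U) {φ : ℂ → ℂ} {s χ e : ℂ} (h : IsSign U φ s χ)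
    (he : e ^ 2 = 1) (hA : ∀ z, pr z ∈ U → φ (AI z) = e * φ z) : s = 1 ∧ χ = 1 := by
  obtain ⟨v₀, hv₀⟩ := hUne
  obtain ⟨w₀, rfl⟩ := pr_surjective v₀
  have hcw : ContinuousAt φ w₀ :=
    h.cont.continuousAt ((hUo.preimage continuous_pr).mem_nhds hv₀)
  have h1 : ∀ᶠ u in 𝓝 w₀, ‖φ w₀ - φ u‖ < 2 ∧ pr u ∈ U := by
    have c : ContinuousAt (fun u => ‖φ w₀ - φ u‖) w₀ := (continuousAt_const.sub hcw).norm
    refine (c.eventually_lt continuousAt_const ?_).and
      ((hUo.preimage continuous_pr).mem_nhds hv₀)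
    simp
  obtain ⟨δ, hδ, hball⟩ := Metric.eventually_nhds_iff_ball.mp h1
  -- a large power
  obtain ⟨n, hn⟩ : ∃ n : ℕ, 6 * 30 ^ 2 / 2 ^ n < δ ^ 2 := by
    obtain ⟨n, hn⟩ := pow_unbounded_of_one_lt (6 * 30 ^ 2 / δ ^ 2) (by norm_num : (1 : ℝ) < 2)
    refine ⟨n, ?_⟩
    have h2 : (0 : ℝ) < δ ^ 2 := by positivity
    have h3 : (0 : ℝ) < 2 ^ n := by positivity
    rw [div_lt_iff₀ h2] at hn
    rw [div_lt_iff₀ h3]
    linarith
  have hiter : ∀ (k : ℕ) (z : ℂ), pr z ∈ U → pr (AI^[k] z) ∈ U ∧ φ (AI^[k] z) = e ^ k * φ z := by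
    intro k
    induction k with
    | zero => intro z hz; simpa using hz
    | succ k ih =>
      intro z hz
      obtain ⟨a1, a2⟩ := ih z hz
      rw [Function.iterate_succ_apply']
      refine ⟨hback _ a1, ?_⟩
      rw [hA _ a1, a2]; ring
  have hconst : ∀ y, pr y ∈ U → e ^ n * φ y = φ w₀ := by
    intro y hy
    obtain ⟨m, k, hmk⟩ := exists_even y (AA^[n] w₀)
    have hy' : pr (y + lat (2 * m) (2 * k)) ∈ U := by rw [pr_add_lat]; exact hy
    obtain ⟨_, b2⟩ := hiter n _ hy'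
    rw [h.even] at b2
    have hdist : AI^[n] (y + lat (2 * m) (2 * k)) ∈ Metric.ball w₀ δ := by
      rw [Metric.mem_ball, dist_eq_norm]
      have e1 : AI^[n] (y + lat (2 * m) (2 * k)) - w₀ =
          AI^[n] (y + lat (2 * m) (2 * k) - AA^[n] w₀) := by
        rw [AI_iter_sub, AI_AA_iter]
      rw [e1]
      have e2 := norm_AI_iter n (y + lat (2 * m) (2 * k) - AA^[n] w₀)
      have e3 : ‖AI^[n] (y + lat (2 * m) (2 * k) - AA^[n] w₀)‖ ^ 2 < δ ^ 2 := by
        refine lt_of_le_of_lt e2 (lt_of_le_of_lt ?_ hn)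
        gcongr
      exact lt_of_pow_lt_pow_left₀ 2 hδ.le e3
    obtain ⟨c1, c2⟩ := hball _ hdist
    have := eq_of_sq_one (h.sq _ hv₀) (h.sq _ c2) c1
    rw [this, b2]
  have hen : e ^ n ≠ 0 := by
    apply pow_ne_zero
    rintro rfl
    norm_num at he
  have hφ0 : φ w₀ ≠ 0 := by
    intro h0
    have := h.sq _ hv₀
    rw [h0] at this
    norm_num at this
  have hw0 := hconst w₀ hv₀
  constructor
  · have h2 : e ^ n * (s * φ w₀) = e ^ n * φ w₀ := by
      rw [← h.neg, hconst (-w₀) (by rw [pr_neg]; exact hv₀), hw0]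
    have h3 := mul_left_cancel₀ hen h2
    have h4 : s * φ w₀ = 1 * φ w₀ := by rw [h3, one_mul]
    exact mul_right_cancel₀ hφ0 h4
  · have h2 : e ^ n * (χ * φ w₀) = e ^ n * φ w₀ := by
      rw [← h.tr1, hconst (w₀ + lat 1 0) (by rw [pr_add_lat]; exact hv₀), hw0]
    have h3 := mul_left_cancel₀ hen h2
    have h4 : χ * φ w₀ = 1 * φ w₀ := by rw [h3, one_mul]
    exact mul_right_cancel₀ hφ0 h4

theorem IsSign.tr_aa2 {U : Set S2} {φ : ℂ → ℂ} {s χ : ℂ} (h : IsSign U φ s χ) (z : ℂ) :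
    φ (z + aa + aa) = φ z := by
  have hh : χ * χ = 1 := by rw [← pow_two]; exact h.hχ
  have e1 : (z + aa + aa) + lat 0 1 = z + lat 1 0 := by
    apply Complex.ext
    · simp; ring
    · simp; ring
  have h1 := h.tr2 (z + aa + aa)
  rw [e1, h.tr1] at h1
  have h2 := congrArg (fun x => χ * x) h1
  simp only [← mul_assoc, hh, one_mul] at h2
  exact h2.symm

theorem AI_lat10 : AI (lat 1 0) = aa := by
  apply Complex.ext
  · simp
  · simp

theorem AI_lat01 : AI (lat 0 1) = lat 1 0 := by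
  apply Complex.ext
  · simp
  · simp

/-- the sign by which `φ` distinguishes the two preimages -/
noncomputable def tau (φ : ℂ → ℂ) (χ : ℂ) (w : ℂ) : ℂ := χ * (φ (AI w) * φ (AI w + aa))

theorem tau_const {U : Set S2} (hUo : IsOpen U) (hU : IsPreconnected U)
    (hback : ∀ z, pr z ∈ U → pr (AI z) ∈ U) {φ : ℂ → ℂ} {s χ : ℂ} (h : IsSign U φ s χ)
    {z z' : ℂ} (hz : pr z ∈ U) (hz' : pr z' ∈ U) : tau φ χ z = tau φ χ z' ∧ tau φ χ z ^ 2 = 1 := by
  have hback' : ∀ z, pr z ∈ U → pr (AI z + aa) ∈ U := by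
    intro z hz
    rw [← AI_lat10, ← AI_add]
    apply hback
    rw [pr_add_lat]; exact hz
  have hs2 : s * s = 1 := by rw [← pow_two]; exact h.hs
  have hχ2 : χ * χ = 1 := by rw [← pow_two]; exact h.hχ
  have hsq : ∀ z, pr z ∈ U → tau φ χ z ^ 2 = 1 := by
    intro z hz
    unfold tau
    rw [mul_pow, mul_pow, h.hχ, h.sq _ (hback z hz), h.sq _ (hback' z hz)]
    norm_num
  refine ⟨const_of_inv hUo hU ?_ hsq ?_ hz hz', hsq z hz⟩
  · unfold tau
    apply ContinuousOn.mul continuousOn_const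
    apply ContinuousOn.mul
    · exact h.cont.comp continuous_AI.continuousOn hback
    · exact h.cont.comp (f := fun w => AI w + aa) (continuous_AI.add continuous_const).continuousOn
        hback'
  · intro z z' hz e
    refine inv_of_gen (U := U) ?_ ?_ ?_ hz e
    · intro z _
      unfold tau
      rw [AI_neg, h.neg]
      have e1 : -AI z + aa = -((AI z + aa) - aa - aa) := by ring
      have e2 : φ ((AI z + aa) - aa - aa) = φ (AI z + aa) := by
        have := h.tr_aa2 ((AI z + aa) - aa - aa)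
        rw [← this]
        congr 1; ring
      rw [e1, h.neg, e2]
      linear_combination (χ * φ (AI z) * φ (AI z + aa)) * hs2
    · intro z _
      unfold tau
      rw [AI_add, AI_lat10, h.tr_aa2]; ring
    · intro z _
      unfold tau
      rw [AI_add, AI_lat01, h.tr1]
      have e1 : AI z + lat 1 0 + aa = (AI z + aa) + lat 1 0 := by ring
      rw [e1, h.tr1]
      linear_combination (χ * φ (AI z) * φ (AI z + aa)) * hχ2

/-- if the two preimages are not distinguished then the sign function is trivial -/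
theorem trivial_of_tau {U : Set S2} (hUo : IsOpen U) (hU : IsConnected U)
    (hback : ∀ z, pr z ∈ U → pr (AI z) ∈ U) {φ : ℂ → ℂ} {s χ : ℂ} (h : IsSign U φ s χ)
    (ht : ∀ z, pr z ∈ U → tau φ χ z = 1) : s = 1 ∧ χ = 1 := by
  have hs2 : s * s = 1 := by rw [← pow_two]; exact h.hs
  have hχ2 : χ * χ = 1 := by rw [← pow_two]; exact h.hχ
  have ht' : ∀ z, pr z ∈ U → φ (AI z + aa) = χ * φ (AI z) := by
    intro z hz
    have h1 := ht z hz
    unfold tau at h1
    have h2 := h.sq _ (hback z hz)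
    linear_combination (χ * φ (AI z)) * h1 - (φ (AI z + aa)) * h2 -
      (φ (AI z) ^ 2 * φ (AI z + aa)) * hχ2
  obtain ⟨v₀, hv₀⟩ := hU.nonempty
  obtain ⟨w₀, rfl⟩ := pr_surjective v₀
  have hσsq : ∀ z, pr z ∈ U → (φ z * φ (AI z)) ^ 2 = 1 := by
    intro z hz
    rw [mul_pow, h.sq _ hz, h.sq _ (hback z hz), one_mul]
  have hσ : ∀ z, pr z ∈ U → φ z * φ (AI z) = φ w₀ * φ (AI w₀) := by
    intro z hz
    refine const_of_inv (τ := fun z => φ z * φ (AI z)) hUo hU.isPreconnected ?_ hσsq ?_ hz hv₀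
    · exact h.cont.mul (h.cont.comp continuous_AI.continuousOn hback)
    · intro z z' hz e
      refine inv_of_gen (U := U) (τ := fun z => φ z * φ (AI z)) ?_ ?_ ?_ hz e
      · intro z _
        rw [AI_neg, h.neg, h.neg]
        linear_combination (φ z * φ (AI z)) * hs2
      · intro z hz
        rw [AI_add, AI_lat10, h.tr1, ht' z hz]
        linear_combination (φ z * φ (AI z)) * hχ2
      · intro z _
        rw [AI_add, AI_lat01, h.tr1, h.tr2]
        linear_combination (φ z * φ (AI z)) * hχ2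
  refine h.trivial hUo hU.nonempty hback (hσsq w₀ hv₀) ?_
  intro z hz
  have h1 := hσ z hz
  have h2 := h.sq _ hz
  linear_combination (φ z) * h1 - φ (AI z) * h2

/-- the first square root -/
noncomputable def R1 (z : ℂ) : ℂ :=
  ⟨Real.cos (z.re / 2) * Real.cos (z.im / 2), Real.sin (z.re / 2) * Real.sin (z.im / 2)⟩

/-- the second square root -/
noncomputable def R2 (z : ℂ) : ℂ :=
  ⟨Real.sin (z.re / 2) * Real.cos (z.im / 2), Real.cos (z.re / 2) * Real.sin (z.im / 2)⟩

theorem continuous_R1 : Continuous R1 := by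
  have : R1 = fun z : ℂ => Complex.equivRealProdCLM.symm
      (Real.cos (z.re / 2) * Real.cos (z.im / 2), Real.sin (z.re / 2) * Real.sin (z.im / 2)) := by
    ext z
    apply Complex.ext <;> simp [R1]
  rw [this]
  exact Complex.equivRealProdCLM.symm.continuous.comp (by fun_prop)

theorem continuous_R2 : Continuous R2 := by
  have : R2 = fun z : ℂ => Complex.equivRealProdCLM.symm
      (Real.sin (z.re / 2) * Real.cos (z.im / 2), Real.cos (z.re / 2) * Real.sin (z.im / 2)) := by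
    ext z
    apply Complex.ext <;> simp [R2]
  rw [this]
  exact Complex.equivRealProdCLM.symm.continuous.comp (by fun_prop)

theorem HH_pr (ε : ℝ) (z : ℂ) : ((‖cc z‖ / 2 : ℝ) : ℂ) * HH ε (pr z) =
    ⟨(Real.cos z.im + ε * Real.cos z.re) / 2, (Real.sin z.re * Real.sin z.im) / 2⟩ := by
  have h0 := cc_apply z 0
  have h1 := cc_apply z 1
  have h2 := cc_apply z 2
  rw [cc_zero] at h0
  rw [cc_one] at h1
  rw [cc_two] at h2
  apply Complex.ext
  · rw [Complex.re_ofReal_mul]
    simp only [HH]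
    rw [h0, h1]; ring
  · rw [Complex.im_ofReal_mul]
    simp only [HH]
    rw [h2]; ring

theorem R1_sq (z : ℂ) : R1 z ^ 2 = ((‖cc z‖ / 2 : ℝ) : ℂ) * HH 1 (pr z) := by
  rw [HH_pr]
  have a1 : Real.cos z.re = 2 * Real.cos (z.re / 2) ^ 2 - 1 := by
    rw [← Real.cos_two_mul]; congr 1; ring
  have a2 : Real.cos z.im = 2 * Real.cos (z.im / 2) ^ 2 - 1 := by
    rw [← Real.cos_two_mul]; congr 1; ring
  have a3 : Real.sin z.re = 2 * Real.sin (z.re / 2) * Real.cos (z.re / 2) := by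
    rw [← Real.sin_two_mul]; congr 1; ring
  have a4 : Real.sin z.im = 2 * Real.sin (z.im / 2) * Real.cos (z.im / 2) := by
    rw [← Real.sin_two_mul]; congr 1; ring
  have b1 := Real.sin_sq_add_cos_sq (z.re / 2)
  have b2 := Real.sin_sq_add_cos_sq (z.im / 2)
  apply Complex.ext
  · rw [sq, Complex.mul_re, a1, a2]
    simp only [R1]
    have c1 : Real.sin (z.re / 2) ^ 2 = 1 - Real.cos (z.re / 2) ^ 2 := by linarith
    have c2 : Real.sin (z.im / 2) ^ 2 = 1 - Real.cos (z.im / 2) ^ 2 := by linarith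
    have : Real.sin (z.re / 2) * Real.sin (z.im / 2) * (Real.sin (z.re / 2) * Real.sin (z.im / 2))
      = (1 - Real.cos (z.re / 2) ^ 2) * (1 - Real.cos (z.im / 2) ^ 2) := by
      rw [← c1, ← c2]; ring
    rw [this]; ring
  · rw [sq, Complex.mul_im, a3, a4]
    simp only [R1]
    ring

theorem R2_sq (z : ℂ) : R2 z ^ 2 = ((‖cc z‖ / 2 : ℝ) : ℂ) * HH (-1) (pr z) := by
  rw [HH_pr]
  have a1 : Real.cos z.re = 2 * Real.cos (z.re / 2) ^ 2 - 1 := by
    rw [← Real.cos_two_mul]; congr 1; ring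
  have a2 : Real.cos z.im = 2 * Real.cos (z.im / 2) ^ 2 - 1 := by
    rw [← Real.cos_two_mul]; congr 1; ring
  have a3 : Real.sin z.re = 2 * Real.sin (z.re / 2) * Real.cos (z.re / 2) := by
    rw [← Real.sin_two_mul]; congr 1; ring
  have a4 : Real.sin z.im = 2 * Real.sin (z.im / 2) * Real.cos (z.im / 2) := by
    rw [← Real.sin_two_mul]; congr 1; ring
  have b1 := Real.sin_sq_add_cos_sq (z.re / 2)
  have b2 := Real.sin_sq_add_cos_sq (z.im / 2)
  have c1 : Real.sin (z.re / 2) ^ 2 = 1 - Real.cos (z.re / 2) ^ 2 := by linarith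
  have c2 : Real.sin (z.im / 2) ^ 2 = 1 - Real.cos (z.im / 2) ^ 2 := by linarith
  apply Complex.ext
  · rw [sq, Complex.mul_re, a1, a2]
    simp only [R2]
    have e1 : Real.sin (z.re / 2) * Real.cos (z.im / 2) * (Real.sin (z.re / 2) * Real.cos (z.im / 2))
      = (1 - Real.cos (z.re / 2) ^ 2) * Real.cos (z.im / 2) ^ 2 := by
      rw [← c1]; ring
    have e2 : Real.cos (z.re / 2) * Real.sin (z.im / 2) * (Real.cos (z.re / 2) * Real.sin (z.im / 2))
      = Real.cos (z.re / 2) ^ 2 * (1 - Real.cos (z.im / 2) ^ 2) := by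
      rw [← c2]; ring
    rw [e1, e2]; ring
  · rw [sq, Complex.mul_im, a3, a4]
    simp only [R2]
    ring

theorem R1_neg (z : ℂ) : R1 (-z) = 1 * R1 z := by
  apply Complex.ext <;> simp [R1, neg_div]

theorem R2_neg (z : ℂ) : R2 (-z) = -1 * R2 z := by
  apply Complex.ext <;> simp [R2, neg_div]

theorem half_shift (x : ℝ) : (x + 2 * Real.pi * (1 : ℤ)) / 2 = x / 2 + Real.pi := by
  push_cast; ring

theorem R1_tr1 (z : ℂ) : R1 (z + lat 1 0) = -1 * R1 z := by
  have e1 : (z + lat 1 0).re / 2 = z.re / 2 + Real.pi := by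
    rw [Complex.add_re, lat_re, half_shift]
  have e2 : (z + lat 1 0).im / 2 = z.im / 2 := by
    rw [Complex.add_im, lat_im]; norm_num
  unfold R1
  rw [e1, e2, Real.cos_add_pi, Real.sin_add_pi]
  apply Complex.ext <;> simp

theorem R1_tr2 (z : ℂ) : R1 (z + lat 0 1) = -1 * R1 z := by
  have e1 : (z + lat 0 1).im / 2 = z.im / 2 + Real.pi := by
    rw [Complex.add_im, lat_im, half_shift]
  have e2 : (z + lat 0 1).re / 2 = z.re / 2 := by
    rw [Complex.add_re, lat_re]; norm_num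
  unfold R1
  rw [e1, e2, Real.cos_add_pi, Real.sin_add_pi]
  apply Complex.ext <;> simp

theorem R2_tr1 (z : ℂ) : R2 (z + lat 1 0) = -1 * R2 z := by
  have e1 : (z + lat 1 0).re / 2 = z.re / 2 + Real.pi := by
    rw [Complex.add_re, lat_re, half_shift]
  have e2 : (z + lat 1 0).im / 2 = z.im / 2 := by
    rw [Complex.add_im, lat_im]; norm_num
  unfold R2
  rw [e1, e2, Real.cos_add_pi, Real.sin_add_pi]
  apply Complex.ext <;> simp

theorem R2_tr2 (z : ℂ) : R2 (z + lat 0 1) = -1 * R2 z := by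
  have e1 : (z + lat 0 1).im / 2 = z.im / 2 + Real.pi := by
    rw [Complex.add_im, lat_im, half_shift]
  have e2 : (z + lat 0 1).re / 2 = z.re / 2 := by
    rw [Complex.add_re, lat_re]; norm_num
  unfold R2
  rw [e1, e2, Real.cos_add_pi, Real.sin_add_pi]
  apply Complex.ext <;> simp

theorem HH_eq_zero {ε : ℝ} (hε : ε ^ 2 = 1) {v : S2} (h : HH ε v = 0) :
    hw ε v = 1 ∨ hw ε v = -1 := by
  have h1 := hw_sq hε v
  rw [h] at h1
  simp only [Complex.zero_re, Complex.zero_im] at h1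
  have : hw ε v ^ 2 = 1 := by linarith
  exact sq_eq_one_iff_real this

theorem bot_unique {ε : ℝ} (hε : ε ^ 2 = 1) {v v' : S2} (h : hw ε v = -1) (h' : hw ε v' = -1) :
    v = v' :=
  eq_of_hw_HH hε (by rw [h, h']) (by
    rw [HH_of_hw hε (by rw [h]; norm_num), HH_of_hw hε (by rw [h']; norm_num)])

/-- The parity theorem: no proper closed connected set with connected complement that contains the
four postcritical points is mapped into itself by `ff`. -/
theorem no_invariant {T : Set S2} (hTc : IsClosed T) (hT : IsPreconnected T)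
    (hU : IsConnected Tᶜ) (hpost : ∀ v : S2, (∃ ε : ℝ, ε ^ 2 = 1 ∧ hw ε v ^ 2 = 1) → v ∈ T)
    (hex : ∀ ε : ℝ, ε ^ 2 = 1 → ∃ q p : S2, hw ε q = 1 ∧ hw ε p = -1)
    (hinv : ∀ v ∈ T, ff v ∈ T) : False := by
  have hUo : IsOpen Tᶜ := hTc.isOpen_compl
  have hback : ∀ z, pr z ∈ Tᶜ → pr (AI z) ∈ Tᶜ := by
    intro z hz h
    apply hz
    have := hinv _ h
    rwa [ff_pr, AA_AI] at this
  have hroot : ∀ ε : ℝ, ε ^ 2 = 1 → HasRoot Tᶜ (HH ε) := by
    intro ε hε
    obtain ⟨q, p, hq, hp⟩ := hex ε hε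
    exact root_main hε hTc hT hU (hpost q ⟨ε, hε, by rw [hq]; norm_num⟩) hq
      (hpost p ⟨ε, hε, by rw [hp]; norm_num⟩) hp
  have hne : ∀ ε : ℝ, ε ^ 2 = 1 → ∀ v ∈ Tᶜ, HH ε v ≠ 0 := by
    intro ε hε v hv h
    apply hv
    apply hpost
    refine ⟨ε, hε, ?_⟩
    rcases HH_eq_zero hε h with h | h <;> rw [h] <;> norm_num
  have hε1 : (1 : ℝ) ^ 2 = 1 := by norm_num
  have hε2 : (-1 : ℝ) ^ 2 = 1 := by norm_num
  obtain ⟨r1, a1, a2⟩ := hroot 1 hε1
  obtain ⟨r2, b1, b2⟩ := hroot (-1) hε2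
  obtain ⟨φ1, hφ1⟩ := isSign_of_root a1 a2 continuous_R1 R1_sq (hne 1 hε1) (s := 1) (χ := -1)
    (by norm_num) (by norm_num) R1_neg R1_tr1 R1_tr2
  obtain ⟨φ2, hφ2⟩ := isSign_of_root b1 b2 continuous_R2 R2_sq (hne (-1) hε2) (s := -1) (χ := -1)
    (by norm_num) (by norm_num) R2_neg R2_tr1 R2_tr2
  have hφ3 := hφ1.mul hφ2
  obtain ⟨v₀, hv₀⟩ := hU.nonempty
  obtain ⟨w₀, rfl⟩ := pr_surjective v₀
  have t1 := fun z (hz : pr z ∈ Tᶜ) => tau_const hUo hU.isPreconnected hback hφ1 hz hv₀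
  have t2 := fun z (hz : pr z ∈ Tᶜ) => tau_const hUo hU.isPreconnected hback hφ2 hz hv₀
  have c1 := (t1 w₀ hv₀).2
  have c2 := (t2 w₀ hv₀).2
  have hne1 : (-1 : ℂ) ≠ 1 := by norm_num
  rcases sq_eq_one_iff_of_side_cond c1 with e1 | e1
  · have := trivial_of_tau hUo hU hback hφ1 fun z hz => by rw [(t1 z hz).1, e1]
    exact hne1 this.2
  · rcases sq_eq_one_iff_of_side_cond c2 with e2 | e2
    · have := trivial_of_tau hUo hU hback hφ2 fun z hz => by rw [(t2 z hz).1, e2]
      exact hne1 this.2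
    · have := trivial_of_tau hUo hU hback hφ3 fun z hz => by
        have e : tau (fun z => φ1 z * φ2 z) (-1 * -1) z = tau φ1 (-1) z * tau φ2 (-1) z := by
          unfold tau; ring
        rw [e, (t1 z hz).1, (t2 z hz).1, e1, e2]; norm_num
      have h3 := this.1
      norm_num at h3

end Pool.Agent.Run7.h327.Tr
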