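import Mathlib
import Pool.Agent.Run7.h327.Tr.Par

/-!
# The map `ff` is expanding with respect to the equator
-/

set_option autoImplicit false

open Set Filter Topology

namespace Pool.Agent.Run7.h327.Tr

open Pool.Agent.Run7.h327.Th

theorem ff_iter_pr (n : ℕ) (z : ℂ) : ff^[n] (pr z) = pr (AA^[n] z) := by
  induction n generalizing z with
  | zero => rfl
  | succ n ih => rw [Function.iterate_succ_apply, ff_pr, ih, ← Function.iterate_succ_apply]

theorem AA_iter_neg (n : ℕ) (z : ℂ) : AA^[n] (-z) = -AA^[n] z := by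
  induction n with
  | zero => rfl
  | succ n ih => rw [Function.iterate_succ_apply', ih, AA_neg, ← Function.iterate_succ_apply' AA]

theorem AA_iter_lat (n : ℕ) (p q : ℤ) : ∃ p' q' : ℤ, ∀ z, AA^[n] (z + lat p q) = AA^[n] z + lat p' q' := by
  induction n with
  | zero => exact ⟨p, q, fun z => rfl⟩
  | succ n ih =>
    obtain ⟨p', q', h⟩ := ih
    refine ⟨-2 * q', p' + q', fun z => ?_⟩
    rw [Function.iterate_succ_apply', h, AA_add, AA_lat, ← Function.iterate_succ_apply' AA]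

/-- no grid line separates `a` and `b` -/
def SameSq (a b : ℂ) : Prop :=
  ∀ k : ℤ, 0 < (a.re - k * Real.pi) * (b.re - k * Real.pi) ∧
    0 < (a.im - k * Real.pi) * (b.im - k * Real.pi)

theorem mul_pos_symm {x y : ℝ} (h : 0 < x * y) : 0 < y * x := by rwa [mul_comm]

theorem mul_pos_trans {x y z : ℝ} (h : 0 < x * y) (h' : 0 < y * z) : 0 < x * z := by
  have h1 : 0 < (x * y) * (y * z) := mul_pos h h'
  have h2 : (x * y) * (y * z) = y ^ 2 * (x * z) := by ring
  rw [h2] at h1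
  have hy : 0 < y ^ 2 := by
    have : y ≠ 0 := by rintro rfl; simp at h
    positivity
  exact (mul_pos_iff_of_pos_left hy).mp h1

theorem SameSq.symm {a b : ℂ} (h : SameSq a b) : SameSq b a := fun k =>
  ⟨mul_pos_symm (h k).1, mul_pos_symm (h k).2⟩

theorem SameSq.trans {a b c : ℂ} (h : SameSq a b) (h' : SameSq b c) : SameSq a c := fun k =>
  ⟨mul_pos_trans (h k).1 (h' k).1, mul_pos_trans (h k).2 (h' k).2⟩

theorem SameSq.neg {a b : ℂ} (h : SameSq a b) : SameSq (-a) (-b) := by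
  intro k
  obtain ⟨h1, h2⟩ := h (-k)
  push_cast at h1 h2
  rw [Complex.neg_re, Complex.neg_re, Complex.neg_im, Complex.neg_im]
  constructor
  · linarith
  · linarith

theorem SameSq.add_lat {a b : ℂ} (h : SameSq a b) (m n : ℤ) :
    SameSq (a + lat m n) (b + lat m n) := by
  intro k
  obtain ⟨h1, _⟩ := h (k - 2 * m)
  obtain ⟨_, h2⟩ := h (k - 2 * n)
  push_cast at h1 h2
  rw [Complex.add_re, Complex.add_re, Complex.add_im, Complex.add_im, lat_re, lat_im]
  constructor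
  · have e1 : a.re + 2 * Real.pi * m - k * Real.pi = a.re - (k - 2 * m) * Real.pi := by ring
    have e2 : b.re + 2 * Real.pi * m - k * Real.pi = b.re - (k - 2 * m) * Real.pi := by ring
    rw [e1, e2]; exact h1
  · have e1 : a.im + 2 * Real.pi * n - k * Real.pi = a.im - (k - 2 * n) * Real.pi := by ring
    have e2 : b.im + 2 * Real.pi * n - k * Real.pi = b.im - (k - 2 * n) * Real.pi := by ring
    rw [e1, e2]; exact h2

theorem close_of_same {x y : ℝ} (h : ∀ k : ℤ, 0 < (x - k * Real.pi) * (y - k * Real.pi)) :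
    y < x + Real.pi := by
  by_contra hcon
  push Not at hcon
  have hp := Real.pi_pos
  have h1 := Int.floor_le (x / Real.pi)
  have h2 := Int.lt_floor_add_one (x / Real.pi)
  rw [le_div_iff₀ hp] at h1
  rw [div_lt_iff₀ hp] at h2
  have h3 := h (⌊x / Real.pi⌋ + 1)
  push_cast at h3
  have a1 : x - (⌊x / Real.pi⌋ + 1) * Real.pi < 0 := by linarith
  have a2 : 0 ≤ y - (⌊x / Real.pi⌋ + 1) * Real.pi := by linarith
  nlinarith [mul_nonneg (neg_nonneg.mpr a1.le) a2]

theorem SameSq.norm_le {a b : ℂ} (h : SameSq a b) : ‖a - b‖ ≤ 7 := by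
  have h1 := close_of_same fun k => (h k).1
  have h2 := close_of_same fun k => (h.symm k).1
  have h3 := close_of_same fun k => (h k).2
  have h4 := close_of_same fun k => (h.symm k).2
  have hp := Real.pi_lt_d2
  have e1 : |(a - b).re| ≤ 3.5 := by
    rw [Complex.sub_re, abs_le]; constructor <;> linarith
  have e2 : |(a - b).im| ≤ 3.5 := by
    rw [Complex.sub_im, abs_le]; constructor <;> linarith
  exact (Complex.norm_le_abs_re_add_abs_im _).trans (by linarith)

theorem near_same {x : ℝ} (hx : Real.sin x ≠ 0) :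
    ∀ᶠ y in 𝓝 x, ∀ k : ℤ, 0 < (x - k * Real.pi) * (y - k * Real.pi) := by
  have hp := Real.pi_pos
  have h1 := Int.floor_le (x / Real.pi)
  have h2 := Int.lt_floor_add_one (x / Real.pi)
  rw [le_div_iff₀ hp] at h1
  rw [div_lt_iff₀ hp] at h2
  have h3 : (⌊x / Real.pi⌋ : ℝ) * Real.pi ≠ x := by
    intro h
    apply hx
    rw [← h]
    exact Real.sin_int_mul_pi _
  have h4 : (⌊x / Real.pi⌋ : ℝ) * Real.pi < x := lt_of_le_of_ne h1 h3
  filter_upwards [Ioo_mem_nhds h4 h2] with y hy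
  intro k
  rcases le_or_gt k ⌊x / Real.pi⌋ with hk | hk
  · have hk' : (k : ℝ) ≤ ⌊x / Real.pi⌋ := by exact_mod_cast hk
    have : (k : ℝ) * Real.pi ≤ ⌊x / Real.pi⌋ * Real.pi := mul_le_mul_of_nonneg_right hk' hp.le
    exact mul_pos (by linarith) (by linarith [hy.1])
  · have hk' : (⌊x / Real.pi⌋ : ℝ) + 1 ≤ k := by exact_mod_cast hk
    have : (⌊x / Real.pi⌋ + 1 : ℝ) * Real.pi ≤ k * Real.pi := mul_le_mul_of_nonneg_right hk' hp.le
    exact mul_pos_of_neg_of_neg (by linarith) (by linarith [hy.2])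

theorem pr_mem_Eq0 {z : ℂ} : pr z ∈ Eq0 ↔ Real.sin z.re * Real.sin z.im = 0 := by
  change (pr z : V3) 2 = 0 ↔ _
  rw [pr_apply, cc_two, mul_eq_zero]
  constructor
  · rintro (h | h)
    · exact absurd h (inv_ne_zero (norm_cc_pos z).ne')
    · exact h
  · intro h; right; exact h

theorem sameSq_near {z : ℂ} (hz : pr z ∉ Eq0) : ∀ᶠ w in 𝓝 z, SameSq z w := by
  rw [pr_mem_Eq0] at hz
  have h1 : Real.sin z.re ≠ 0 := fun h => hz (by rw [h, zero_mul])
  have h2 : Real.sin z.im ≠ 0 := fun h => hz (by rw [h, mul_zero])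
  have e1 := Complex.continuous_re.continuousAt.eventually (near_same h1)
  have e2 := Complex.continuous_im.continuousAt.eventually (near_same h2)
  filter_upwards [e1, e2] with w a1 a2
  intro k
  exact ⟨a1 k, a2 k⟩

theorem continuous_AA_iter (n : ℕ) : Continuous (AA^[n]) := continuous_AA.iterate n

theorem lift_rel {n : ℕ} {z z' w : ℂ} (h : SameSq (AA^[n] z) (AA^[n] z')) (e : pr z = pr w) :
    ∃ w', pr w' = pr z' ∧ SameSq (AA^[n] w) (AA^[n] w') := by
  rcases pr_eq_iff.mp e with ⟨p, q, rfl⟩ | ⟨p, q, rfl⟩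
  · obtain ⟨p', q', h1⟩ := AA_iter_lat n p q
    refine ⟨z' + lat p q, pr_add_lat _ _ _, ?_⟩
    rw [h1, h1]
    exact h.add_lat _ _
  · obtain ⟨p', q', h1⟩ := AA_iter_lat n p q
    refine ⟨-z' + lat p q, by rw [pr_add_lat, pr_neg], ?_⟩
    rw [h1, h1, AA_iter_neg, AA_iter_neg]
    exact h.neg.add_lat _ _

theorem rel_of_preconnected {n : ℕ} {W : Set S2} (hW : IsPreconnected W)
    (hWs : W ⊆ ff^[n] ⁻¹' Eq0ᶜ) {p p' : S2} (hp : p ∈ W) (hp' : p' ∈ W) :
    ∃ z z', pr z = p ∧ pr z' = p' ∧ SameSq (AA^[n] z) (AA^[n] z') := by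
  refine hW.induction₂
    (fun p p' => ∃ z z', pr z = p ∧ pr z' = p' ∧ SameSq (AA^[n] z) (AA^[n] z')) ?_ ?_ ?_ hp hp'
  · intro x hx
    obtain ⟨z, rfl⟩ := pr_surjective x
    have h1 : pr (AA^[n] z) ∉ Eq0 := by
      have := hWs hx
      rwa [mem_preimage, ff_iter_pr] at this
    have h2 := (continuous_AA_iter n).continuousAt.eventually (sameSq_near h1)
    obtain ⟨O, hO, hOo, hzO⟩ := eventually_nhds_iff.mp h2
    have h3 : pr '' O ∈ 𝓝 (pr z) := (isOpenMap_pr O hOo).mem_nhds ⟨z, hzO, rfl⟩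
    filter_upwards [mem_nhdsWithin_of_mem_nhds h3] with y hy
    obtain ⟨u, hu, rfl⟩ := hy
    exact ⟨z, u, rfl, rfl, hO u hu⟩
  · rintro x y y' _ _ _ ⟨z, z', rfl, rfl, h1⟩ ⟨w, w', e, rfl, h2⟩
    obtain ⟨u, hu, h3⟩ := lift_rel h2 e
    exact ⟨z, u, rfl, hu, h1.trans h3⟩
  · rintro x y _ _ ⟨z, z', e1, e2, h⟩
    exact ⟨z', z, e2, e1, h.symm⟩

/-- `pr` is uniformly continuous -/
theorem pr_unif {ε : ℝ} (hε : 0 < ε) : ∃ δ > 0, ∀ z z' : ℂ, ‖z - z'‖ < δ → dist (pr z) (pr z') ≤ ε := by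
  have hc : IsCompact (Metric.closedBall (0 : ℂ) 21) := isCompact_closedBall _ _
  have hu := hc.uniformContinuousOn_of_continuous continuous_pr.continuousOn
  rw [Metric.uniformContinuousOn_iff] at hu
  obtain ⟨δ, hδ, h⟩ := hu ε hε
  refine ⟨min δ 1, lt_min hδ one_pos, fun z z' hz => ?_⟩
  have hpi : 0 < 2 * Real.pi := by positivity
  obtain ⟨m, n, hmn⟩ : ∃ m n : ℤ, ‖z + lat m n‖ ≤ 20 := by
    refine ⟨-⌊z.re / (2 * Real.pi)⌋, -⌊z.im / (2 * Real.pi)⌋, ?_⟩
    have h1 := Int.floor_le (z.re / (2 * Real.pi))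
    have h2 := Int.lt_floor_add_one (z.re / (2 * Real.pi))
    have h3 := Int.floor_le (z.im / (2 * Real.pi))
    have h4 := Int.lt_floor_add_one (z.im / (2 * Real.pi))
    rw [le_div_iff₀ hpi] at h1 h3
    rw [div_lt_iff₀ hpi] at h2 h4
    have hp4 := Real.pi_lt_d2
    have e1 : |(z + lat (-⌊z.re / (2 * Real.pi)⌋) (-⌊z.im / (2 * Real.pi)⌋)).re| ≤ 8 := by
      rw [Complex.add_re, lat_re, abs_le]
      push_cast
      constructor <;> nlinarith
    have e2 : |(z + lat (-⌊z.re / (2 * Real.pi)⌋) (-⌊z.im / (2 * Real.pi)⌋)).im| ≤ 8 := by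
      rw [Complex.add_im, lat_im, abs_le]
      push_cast
      constructor <;> nlinarith
    exact (Complex.norm_le_abs_re_add_abs_im _).trans (by linarith)
  rw [← pr_add_lat z m n, ← pr_add_lat z' m n]
  have hd : dist (z + lat m n) (z' + lat m n) = ‖z - z'‖ := by
    rw [dist_eq_norm]; congr 1; ring
  have h1 : ‖z' + lat m n‖ ≤ 21 := by
    have : z' + lat m n = (z + lat m n) - (z - z') := by ring
    rw [this]
    refine (norm_sub_le _ _).trans ?_
    have := lt_of_lt_of_le hz (min_le_right δ 1)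
    linarith
  refine (h _ ?_ _ ?_ ?_).le
  · rw [mem_closedBall_zero_iff]; linarith
  · rw [mem_closedBall_zero_iff]; exact h1
  · rw [hd]; exact lt_of_lt_of_le hz (min_le_left _ _)

theorem mesh_tendsto : Tendsto (fun n => mesh ff n Eq0) atTop (𝓝 0) := by
  rw [ENNReal.tendsto_nhds_zero]
  intro ε hε
  obtain ⟨r, hr, hrε⟩ : ∃ r : ℝ, 0 < r ∧ ENNReal.ofReal r ≤ ε := by
    rcases eq_or_ne ε ⊤ with h | h
    · exact ⟨1, one_pos, by rw [h]; exact le_top⟩
    · exact ⟨ε.toReal, ENNReal.toReal_pos hε.ne' h, ENNReal.ofReal_toReal_le⟩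
  obtain ⟨δ, hδ, hunif⟩ := pr_unif hr
  have hlim : Tendsto (fun n : ℕ => 6 * 7 ^ 2 / (2 : ℝ) ^ n) atTop (𝓝 0) := by
    have h2 : Tendsto (fun n : ℕ => (1 / 2 : ℝ) ^ n) atTop (𝓝 0) :=
      tendsto_pow_atTop_nhds_zero_of_lt_one (by norm_num) (by norm_num)
    have h3 := h2.const_mul (6 * 7 ^ 2)
    rw [mul_zero] at h3
    refine h3.congr fun n => ?_
    rw [one_div, inv_pow, div_eq_mul_inv]
  filter_upwards [hlim.eventually_lt_const (by positivity : (0 : ℝ) < δ ^ 2)] with n hn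
  unfold mesh
  apply iSup₂_le
  intro p _
  apply Metric.ediam_le
  intro x hx y hy
  refine le_trans ?_ hrε
  rw [edist_dist]
  apply ENNReal.ofReal_le_ofReal
  obtain ⟨z, z', rfl, rfl, h⟩ := rel_of_preconnected isPreconnected_connectedComponentIn
    (connectedComponentIn_subset _ _) hx hy
  apply hunif
  have h1 : z - z' = AI^[n] (AA^[n] z - AA^[n] z') := by
    rw [AI_iter_sub, AI_AA_iter, AI_AA_iter]
  have h2 : ‖z - z'‖ ^ 2 < δ ^ 2 := by
    rw [h1]
    refine lt_of_le_of_lt (norm_AI_iter n _) (lt_of_le_of_lt ?_ hn)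
    have := h.norm_le
    gcongr
  exact lt_of_pow_lt_pow_left₀ 2 hδ.le h2

end Pool.Agent.Run7.h327.Tr
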