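import Mathlib
import Pool.Agent.Run7.h327.Tr.Exp

/-!
# The map `ff` preserves the orientation
-/

set_option autoImplicit false

open Set Filter Topology

namespace Pool.Agent.Run7.h327.Tr

open Pool.Agent.Run7.h327.Th

/-- a criterion for the preservation of the orientation -/
theorem op_of_inner {h : ℂ → ℂ} {z c : ℂ} (hc : c ≠ 0) {R : ℝ} (hR : 0 < R)
    (hcont : ContinuousOn h (Metric.ball z R))
    (hpos : ∀ u : ℂ, u ≠ 0 → ‖u‖ < R →
      0 < (h (z + u) - h z).re * (c * u).re + (h (z + u) - h z).im * (c * u).im) :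
    PreservesOrientationAt h z := by
  rw [op_iff]
  filter_upwards [Ioo_mem_nhdsGT hR] with r hr
  have hr0 : 0 < r := hr.1
  have hrn : ∀ ξ : Circle, ‖(r : ℂ) * ξ‖ = r := fun ξ => by
    rw [norm_mul, circle_norm, mul_one, Complex.norm_real, Real.norm_eq_abs, abs_of_pos hr0]
  have hmem : ∀ ξ : Circle, z + (r : ℂ) * ξ ∈ Metric.ball z R := by
    intro ξ
    rw [Metric.mem_ball, dist_eq_norm, add_sub_cancel_left, hrn]
    exact hr.2
  have hlc : Continuous (loop h z r) := by
    unfold loop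
    apply Continuous.sub _ continuous_const
    exact hcont.comp_continuous (by fun_prop) hmem
  have h1 : LH (loop h z r) (fun ξ => (c * r) * ξ) := by
    apply LH.line hlc (by fun_prop)
    intro s hs ξ h0
    have hne : (r : ℂ) * (ξ : ℂ) ≠ 0 :=
      mul_ne_zero (by exact_mod_cast hr0.ne') (Circle.coe_ne_zero ξ)
    have hp := hpos ((r : ℂ) * ξ) hne (by rw [hrn]; exact hr.2)
    have hl : loop h z r ξ = h (z + (r : ℂ) * ξ) - h z := rfl
    rw [← hl] at hp
    have e : c * (r : ℂ) * (ξ : ℂ) = c * ((r : ℂ) * ξ) := by ring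
    rw [e] at h0
    set a := loop h z r ξ with ha
    set b := c * ((r : ℂ) * ξ) with hb
    have hb0 : b ≠ 0 := mul_ne_zero hc hne
    have hre := congrArg Complex.re h0
    have him := congrArg Complex.im h0
    have e1 : ((1 - s : ℂ) * a + s * b) = (((1 - s : ℝ)) : ℂ) * a + ((s : ℝ) : ℂ) * b := by
      push_cast; ring
    rw [e1, Complex.add_re, Complex.re_ofReal_mul, Complex.re_ofReal_mul, Complex.zero_re] at hre
    rw [e1, Complex.add_im, Complex.im_ofReal_mul, Complex.im_ofReal_mul, Complex.zero_im] at him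
    have hnb : 0 < b.re ^ 2 + b.im ^ 2 := by
      rw [← sq_norm']
      have := norm_pos_iff.mpr hb0
      positivity
    have h3 : (1 - s) * (a.re * b.re + a.im * b.im) + s * (b.re ^ 2 + b.im ^ 2) = 0 := by
      linear_combination b.re * hre + b.im * him
    have h4 : 0 ≤ (1 - s) * (a.re * b.re + a.im * b.im) :=
      mul_nonneg (by linarith [hs.2]) hp.le
    have h5 : 0 ≤ s * (b.re ^ 2 + b.im ^ 2) := mul_nonneg hs.1 hnb.le
    have h6 : s * (b.re ^ 2 + b.im ^ 2) = 0 := by linarith
    have h7 : s = 0 := (mul_eq_zero.mp h6).resolve_right hnb.ne'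
    rw [h7] at h3
    linarith
  exact h1.trans (LH.const_mul (mul_ne_zero hc (by exact_mod_cast hr0.ne')))

/-- the projection in the stereographic coordinate -/
noncomputable def ph (z : ℂ) : ℂ := st (pr z)

/-- the exceptional points of the plane -/
def badp : Set ℂ := {z | (pr z : V3) 2 = 1 ∨ (Real.sin z.re = 0 ∧ Real.sin z.im = 0)}

theorem countable_badp : badp.Countable := by
  have h : badp ⊆ range fun x : ℤ × ℤ => (⟨x.1 * (Real.pi / 2), x.2 * (Real.pi / 2)⟩ : ℂ) := by
    rintro z (h | ⟨h1, h2⟩)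
    · have hs := sum_sq (pr z)
      rw [h] at hs
      have h0 : (pr z : V3) 0 = 0 := by
        nlinarith [sq_nonneg ((pr z : V3) 0), sq_nonneg ((pr z : V3) 1)]
      have h1 : (pr z : V3) 1 = 0 := by
        nlinarith [sq_nonneg ((pr z : V3) 0), sq_nonneg ((pr z : V3) 1)]
      have c0 : Real.cos z.im = 0 := by rw [← cc_zero, cc_apply, h0, mul_zero]
      have c1 : Real.cos z.re = 0 := by rw [← cc_one, cc_apply, h1, mul_zero]
      obtain ⟨k, hk⟩ := Real.cos_eq_zero_iff.mp c0
      obtain ⟨l, hl⟩ := Real.cos_eq_zero_iff.mp c1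
      refine ⟨(2 * l + 1, 2 * k + 1), ?_⟩
      apply Complex.ext
      · simp only; rw [hl]; push_cast; ring
      · simp only; rw [hk]; push_cast; ring
    · obtain ⟨k, hk⟩ := Real.sin_eq_zero_iff.mp h1
      obtain ⟨l, hl⟩ := Real.sin_eq_zero_iff.mp h2
      refine ⟨(2 * k, 2 * l), ?_⟩
      apply Complex.ext
      · simp only; rw [← hk]; push_cast; ring
      · simp only; rw [← hl]; push_cast; ring
  exact (countable_range _).mono h

theorem isOpen_pr_ne : IsOpen {z : ℂ | (pr z : V3) 2 ≠ 1} := by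
  have hc : Continuous fun z : ℂ => (pr z : V3) 2 := by
    have h3 : Continuous fun z : ℂ => (pr z : V3) := continuous_subtype_val.comp continuous_pr
    have h4 : Continuous fun x : V3 => x 2 := by fun_prop
    exact h4.comp h3
  exact isOpen_ne_fun hc continuous_const

theorem continuousOn_ph : ContinuousOn ph {z : ℂ | (pr z : V3) 2 ≠ 1} :=
  continuousOn_st.comp continuous_pr.continuousOn fun _ hz => hz

/-- a lattice vector of norm less than one vanishes -/
theorem lat_small {m n : ℤ} (h : ‖lat m n‖ < 1) : m = 0 ∧ n = 0 := by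
  have hp := Real.pi_gt_three
  have key : ∀ k : ℤ, |2 * Real.pi * (k : ℝ)| < 1 → k = 0 := by
    intro k hk
    by_contra h0
    have h1 : (1 : ℝ) ≤ |(k : ℝ)| := by
      have := Int.one_le_abs h0
      exact_mod_cast this
    rw [abs_mul, abs_of_pos (by positivity : (0 : ℝ) < 2 * Real.pi)] at hk
    nlinarith
  constructor
  · apply key
    have := (Complex.abs_re_le_norm (lat m n)).trans_lt h
    rwa [lat_re] at this
  · apply key
    have := (Complex.abs_im_le_norm (lat m n)).trans_lt h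
    rwa [lat_im] at this

theorem sin_add_two_pi_mul (x : ℝ) (k : ℤ) : Real.sin (x + 2 * Real.pi * k) = Real.sin x := by
  rw [show x + 2 * Real.pi * k = x + k * (2 * Real.pi) by ring, Real.sin_add_int_mul_two_pi]

/-- `pr` is locally injective off the lattice points -/
theorem pr_locInj {z : ℂ} (hz : ¬ (Real.sin z.re = 0 ∧ Real.sin z.im = 0)) :
    ∃ V ∈ 𝓝 z, InjOn pr V := by
  have hball : Metric.ball z (1 / 2) ∈ 𝓝 z := Metric.ball_mem_nhds z (by norm_num)
  have e : ∃ g : ℂ → ℝ, Continuous g ∧ g z ≠ 0 ∧ ∀ w m n, g (-w + lat m n) = -g w := by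
    by_cases h1 : Real.sin z.re = 0
    · refine ⟨fun w => Real.sin w.im, by fun_prop, fun h => hz ⟨h1, h⟩, fun w m n => ?_⟩
      change Real.sin (-w + lat m n).im = -Real.sin w.im
      rw [Complex.add_im, lat_im, sin_add_two_pi_mul, Complex.neg_im, Real.sin_neg]
    · refine ⟨fun w => Real.sin w.re, by fun_prop, h1, fun w m n => ?_⟩
      change Real.sin (-w + lat m n).re = -Real.sin w.re
      rw [Complex.add_re, lat_re, sin_add_two_pi_mul, Complex.neg_re, Real.sin_neg]
  obtain ⟨g, hg, hg0, hgs⟩ := e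
  have h2 : ∀ᶠ w in 𝓝 z, 0 < g z * g w := by
    have c : ContinuousAt (fun w => g z * g w) z := (continuous_const.mul hg).continuousAt
    apply continuousAt_const.eventually_lt c
    exact mul_self_pos.mpr hg0
  refine ⟨_, Filter.inter_mem hball h2, ?_⟩
  rintro w ⟨hw1, hw2⟩ w' ⟨hw1', hw2'⟩ h
  have hw2 : 0 < g z * g w := hw2
  have hw2' : 0 < g z * g w' := hw2'
  rcases pr_eq_iff.mp h with ⟨m, n, rfl⟩ | ⟨m, n, rfl⟩
  · have h3 : ‖lat m n‖ < 1 := by
      have : lat m n = (w + lat m n - z) - (w - z) := by ring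
      rw [this]
      refine (norm_sub_le _ _).trans_lt ?_
      rw [Metric.mem_ball, dist_eq_norm] at hw1 hw1'
      linarith
    obtain ⟨rfl, rfl⟩ := lat_small h3
    apply Complex.ext <;> simp
  · exfalso
    rw [hgs] at hw2'
    linarith

theorem locInj_ph {z : ℂ} (hz : z ∉ badp) : LocInj ph z := by
  have h1 : (pr z : V3) 2 ≠ 1 := fun h => hz (Or.inl h)
  obtain ⟨V, hV, hinj⟩ := pr_locInj (z := z) fun h => hz (Or.inr h)
  obtain ⟨R, hR, hsub⟩ := Metric.mem_nhds_iff.mp (Filter.inter_mem hV (isOpen_pr_ne.mem_nhds h1))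
  refine ⟨R, hR, ?_, ?_⟩
  · exact continuousOn_ph.mono fun z hz => (hsub hz).2
  · intro x hx y hy hxy
    apply hinj (hsub hx).1 (hsub hy).1
    rw [← unstereo_st (hsub hx).2, ← unstereo_st (hsub hy).2]
    exact congrArg unstereo hxy

/-- the base point -/
noncomputable def zb : ℂ := ⟨-(Real.pi / 2), Real.pi / 2⟩

theorem cc_zb (u : ℂ) : cc (zb + u) 0 = -Real.sin u.im ∧ cc (zb + u) 1 = Real.sin u.re ∧
    cc (zb + u) 2 = -(Real.cos u.re * Real.cos u.im) := by
  refine ⟨?_, ?_, ?_⟩
  · rw [cc_zero, Complex.add_im]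
    change Real.cos (Real.pi / 2 + u.im) = _
    rw [add_comm, Real.cos_add_pi_div_two]
  · rw [cc_one, Complex.add_re]
    change Real.cos (-(Real.pi / 2) + u.re) = _
    rw [add_comm, ← sub_eq_add_neg, Real.cos_sub_pi_div_two]
  · rw [cc_two, Complex.add_re, Complex.add_im]
    change Real.sin (-(Real.pi / 2) + u.re) * Real.sin (Real.pi / 2 + u.im) = _
    rw [add_comm (-(Real.pi / 2)), ← sub_eq_add_neg, Real.sin_sub_pi_div_two, add_comm (Real.pi / 2),
      Real.sin_add_pi_div_two]
    ring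

theorem ph_zb (u : ℂ) (hu : 0 < Real.cos u.re * Real.cos u.im) :
    ∃ ρ : ℝ, 0 < ρ ∧ (ph (zb + u)).re = -(ρ * Real.sin u.im) ∧ (ph (zb + u)).im = ρ * Real.sin u.re ∧
      (pr (zb + u) : V3) 2 ≠ 1 := by
  obtain ⟨h0, h1, h2⟩ := cc_zb u
  have hn := norm_cc_pos (zb + u)
  have hpos : 0 < ‖cc (zb + u)‖ - cc (zb + u) 2 := by rw [h2]; linarith
  refine ⟨(‖cc (zb + u)‖ - cc (zb + u) 2)⁻¹, inv_pos.mpr hpos, ?_, ?_, ?_⟩
  · unfold ph pr
    rw [st_dir]
    simp only
    rw [h0, div_eq_mul_inv]; ring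
  · unfold ph pr
    rw [st_dir]
    simp only
    rw [h1, div_eq_mul_inv]; ring
  · rw [pr_apply, h2]
    have : 0 < ‖cc (zb + u)‖⁻¹ := inv_pos.mpr hn
    nlinarith [mul_pos this hu]

theorem cos_pos_small {x : ℝ} (h : |x| < 1) : 0 < Real.cos x := by
  apply Real.cos_pos_of_mem_Ioo
  have := Real.pi_gt_three
  rw [abs_lt] at h
  constructor <;> linarith

theorem mul_sin_nonneg {x : ℝ} (h : |x| < 1) : 0 ≤ x * Real.sin x ∧ (x ≠ 0 → 0 < x * Real.sin x) := by
  have hp := Real.pi_gt_three
  rw [abs_lt] at h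
  rcases lt_trichotomy x 0 with h1 | h1 | h1
  · have : Real.sin x < 0 := Real.sin_neg_of_neg_of_neg_pi_lt h1 (by linarith)
    have := mul_pos_of_neg_of_neg h1 this
    exact ⟨this.le, fun _ => this⟩
  · subst h1
    simp
  · have : 0 < Real.sin x := Real.sin_pos_of_pos_of_lt_pi h1 (by linarith)
    have := mul_pos h1 this
    exact ⟨this.le, fun _ => this⟩

theorem op_ph_zb : PreservesOrientationAt ph zb := by
  have hsm : ∀ u : ℂ, ‖u‖ < 1 → |u.re| < 1 ∧ |u.im| < 1 := fun u hu =>
    ⟨(Complex.abs_re_le_norm u).trans_lt hu, (Complex.abs_im_le_norm u).trans_lt hu⟩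
  have hcp : ∀ u : ℂ, ‖u‖ < 1 → 0 < Real.cos u.re * Real.cos u.im := fun u hu =>
    mul_pos (cos_pos_small (hsm u hu).1) (cos_pos_small (hsm u hu).2)
  have h0 : ph zb = 0 := by
    obtain ⟨ρ, _, h1, h2, _⟩ := ph_zb 0 (hcp 0 (by simp))
    rw [add_zero] at h1 h2
    apply Complex.ext
    · rw [h1]; simp
    · rw [h2]; simp
  refine op_of_inner (c := Complex.I) Complex.I_ne_zero one_pos ?_ ?_
  · refine continuousOn_ph.mono fun z hz => ?_
    rw [Metric.mem_ball, dist_eq_norm] at hz
    obtain ⟨_, _, _, _, h⟩ := ph_zb (z - zb) (hcp _ hz)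
    rw [add_sub_cancel] at h
    exact h
  · intro u hu0 hu
    obtain ⟨ρ, hρ, h1, h2, _⟩ := ph_zb u (hcp u hu)
    rw [h0, sub_zero, h1, h2]
    have a1 := mul_sin_nonneg (hsm u hu).1
    have a2 := mul_sin_nonneg (hsm u hu).2
    have e1 : (Complex.I * u).re = -u.im := by simp
    have e2 : (Complex.I * u).im = u.re := by simp
    rw [e1, e2]
    have h3 : 0 < u.re * Real.sin u.re + u.im * Real.sin u.im := by
      by_cases h : u.re = 0
      · have h' : u.im ≠ 0 := fun h' => hu0 (Complex.ext h h')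
        have := a2.2 h'
        linarith [a1.1]
      · have := a1.2 h
        linarith [a2.1]
    have := mul_pos hρ h3
    linarith

theorem zb_not_bad : zb ∉ badp := by
  rintro (h | ⟨h, _⟩)
  · obtain ⟨_, _, _, _, h1⟩ := ph_zb 0 (by simp)
    rw [add_zero] at h1
    exact h1 h
  · change Real.sin (-(Real.pi / 2)) = 0 at h
    rw [Real.sin_neg, Real.sin_pi_div_two] at h
    norm_num at h

theorem op_ph {z : ℂ} (hz : z ∉ badp) : PreservesOrientationAt ph z := by
  have hpre : IsPreconnected badpᶜ :=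
    (countable_badp.isPathConnected_compl_of_one_lt_rank (by
      rw [Complex.rank_real_complex]; norm_num)).isConnected.isPreconnected
  exact op_preconnected hpre (fun z hz => locInj_ph hz) zb_not_bad hz op_ph_zb

theorem op_AA (z : ℂ) : PreservesOrientationAt AA z := by
  refine op_of_inner (c := Complex.I) Complex.I_ne_zero one_pos continuous_AA.continuousOn ?_
  intro u hu0 _
  have e : AA (z + u) - AA z = AA u := by rw [AA_add]; ring
  rw [e]
  have e1 : (Complex.I * u).re = -u.im := by simp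
  have e2 : (Complex.I * u).im = u.re := by simp
  rw [e1, e2, AA_re, AA_im]
  have h : 0 < u.re ^ 2 + u.im ^ 2 := by
    rw [← sq_norm']
    have := norm_pos_iff.mpr hu0
    positivity
  nlinarith [sq_nonneg (u.re + u.im), sq_nonneg u.im]

/-- the map in the stereographic coordinate -/
noncomputable def gh (w : ℂ) : ℂ := st (ff (unstereo w))

/-- the exceptional points of the coordinate -/
def badw : Set ℂ := {w | w = 0 ∨ (ff (unstereo w) : V3) 2 = 1}

theorem ff_unstereo_eq {w w' : ℂ} : ff (unstereo w) = ff (unstereo w') ↔ w' ^ 2 = w ^ 2 := by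
  rw [ff_eq_iff, ← unstereo_neg]
  constructor
  · rintro (h | h)
    · rw [unstereo_injective h]
    · rw [unstereo_injective h]; ring
  · intro h
    rcases sq_eq_sq_iff_eq_or_eq_neg.mp h with h | h
    · left; rw [h]
    · right; rw [h]

theorem finite_badw : badw.Finite := by
  have h1 : {w : ℂ | w = 0}.Finite := Set.finite_singleton 0
  have h3 : {w : ℂ | (ff (unstereo w) : V3) 2 = 1}.Finite := by
    by_cases h : ∃ w₁, (ff (unstereo w₁) : V3) 2 = 1
    · obtain ⟨w₁, hw₁⟩ := h
      apply (finite_sq (w₁ ^ 2)).subset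
      intro w hw
      exact ff_unstereo_eq.mp (sphere_top hw₁ hw)
    · push Not at h
      apply Set.finite_empty.subset
      intro w hw
      exact h w hw
  apply (h1.union h3).subset
  rintro w (h | h)
  · left; exact h
  · right; exact h

theorem isOpen_gh : IsOpen {w : ℂ | (ff (unstereo w) : V3) 2 ≠ 1} := by
  have hc : Continuous fun w : ℂ => (ff (unstereo w) : V3) 2 := by
    have h3 : Continuous fun w : ℂ => (ff (unstereo w) : V3) :=
      continuous_subtype_val.comp (continuous_ff.comp continuous_unstereo)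
    have h4 : Continuous fun x : V3 => x 2 := by fun_prop
    exact h4.comp h3
  exact isOpen_ne_fun hc continuous_const

theorem locInj_gh {w : ℂ} (hw : w ∉ badw) : LocInj gh w := by
  have h0 : w ≠ 0 := fun h => hw (Or.inl h)
  have h2 : (ff (unstereo w) : V3) 2 ≠ 1 := fun h => hw (Or.inr h)
  have e1 : ∀ᶠ p : ℂ × ℂ in 𝓝 (w, w), p.1 + p.2 ≠ 0 := by
    apply ContinuousAt.eventually_ne (by fun_prop)
    intro h; apply h0
    have : w + w = 0 := h
    have h' : 2 * w = 0 := by linear_combination this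
    simpa using h'
  rw [nhds_prod_eq] at e1
  rw [Filter.eventually_iff, Filter.mem_prod_same_iff] at e1
  obtain ⟨V, hV, hts⟩ := e1
  obtain ⟨R, hR, hsub⟩ := Metric.mem_nhds_iff.mp (Filter.inter_mem hV (isOpen_gh.mem_nhds h2))
  refine ⟨R, hR, ?_, ?_⟩
  · apply ContinuousOn.comp (t := {v : S2 | (v : V3) 2 ≠ 1}) continuousOn_st
      (continuous_ff.comp continuous_unstereo).continuousOn
    intro z hz
    exact (hsub hz).2
  · intro x hx y hy hxy
    have hx' := hsub hx
    have hy' := hsub hy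
    have h3 : ff (unstereo x) = ff (unstereo y) := by
      rw [← unstereo_st hx'.2, ← unstereo_st hy'.2]
      exact congrArg unstereo hxy
    have a1 := hts (show (x, y) ∈ V ×ˢ V from ⟨hx'.1, hy'.1⟩)
    rcases sq_eq_sq_iff_eq_or_eq_neg.mp (ff_unstereo_eq.mp h3) with h | h
    · exact h.symm
    · exfalso; apply a1
      simp [h]

theorem AI_AA_inj : Function.Injective AA := Function.LeftInverse.injective AI_AA

theorem op_gh {w : ℂ} (hw : w ∉ badw) : PreservesOrientationAt gh w := by
  have hpre : IsPreconnected badwᶜ :=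
    (finite_badw.countable.isPathConnected_compl_of_one_lt_rank (by
      rw [Complex.rank_real_complex]; norm_num)).isConnected.isPreconnected
  -- a generic point
  have hc2 : (AA ⁻¹' badp).Countable := countable_badp.preimage_of_injOn AI_AA_inj.injOn
  have hex : ∃ z : ℂ, z ∉ badp ∧ AA z ∉ badp ∧ ph z ∉ badw := by
    obtain ⟨R, hR, hcont, hinj⟩ := locInj_ph zb_not_bad
    have hcb : (Metric.ball zb R ∩ ph ⁻¹' badw).Countable := by
      have hin : InjOn ph (Metric.ball zb R ∩ ph ⁻¹' badw) := hinj.mono inter_subset_left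
      refine MapsTo.countable_of_injOn (t := badw) (fun x hx => hx.2) hin finite_badw.countable
    have hdense : Dense (badp ∪ AA ⁻¹' badp ∪ (Metric.ball zb R ∩ ph ⁻¹' badw))ᶜ :=
      ((countable_badp.union hc2).union hcb).dense_compl ℝ
    obtain ⟨z, hz, hz2⟩ := hdense.inter_open_nonempty (Metric.ball zb R) Metric.isOpen_ball
      ⟨zb, Metric.mem_ball_self hR⟩
    exact ⟨z, fun h => hz2 (Or.inl (Or.inl h)), fun h => hz2 (Or.inl (Or.inr h)),
      fun h => hz2 (Or.inr ⟨hz, h⟩)⟩
  obtain ⟨z, hz1, hz2, hz3⟩ := hex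
  have hcph : ContinuousAt ph z := by
    obtain ⟨R, hR, h, _⟩ := locInj_ph hz1
    exact h.continuousAt (Metric.ball_mem_nhds z hR)
  have k1 : PreservesOrientationAt (fun z => ph (AA z)) z :=
    (op_comp continuous_AA.continuousAt (op_AA z) (locInj_ph hz2)).mp (op_ph hz2)
  have k2 : PreservesOrientationAt gh (ph z) := by
    rw [op_comp hcph (op_ph hz1) (locInj_gh hz3)]
    refine (op_congr ?_).mpr k1
    have hne : (pr z : V3) 2 ≠ 1 := fun h => hz1 (Or.inl h)
    filter_upwards [isOpen_pr_ne.mem_nhds hne] with u hu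
    unfold gh ph
    rw [unstereo_st hu, ff_pr]
  exact op_preconnected hpre (fun z hz => locInj_gh hz) hz3 hw k2

end Pool.Agent.Run7.h327.Tr
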