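import Mathlib
import Pool.Agent.Run7.h327.Tr.Ori

/-!
# `ff` is a branched covering of degree two
-/

set_option autoImplicit false

open Set Filter Topology

namespace Pool.Agent.Run7.h327.Tr

open Pool.Agent.Run7.h327.Th

/-- the charts of the local models, for a general map -/
theorem local_model {F : S2 → S2} (hF : Continuous F) (hFo : IsOpenMap F) {B : Set ℂ}
    (hB : B.Countable)
    (hop : ∀ u, u ∉ B → (F (unstereo u) : V3) 2 ≠ 1 ∧
      PreservesOrientationAt (fun w => st (F (unstereo w))) u)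
    {w₀ : ℂ} {d : ℕ} (hd : 1 ≤ d) {φ : ℂ → ℂ} (hφ : DifferentiableOn ℂ φ univ) (h0 : φ w₀ = 0)
    (h1 : deriv φ w₀ ≠ 0)
    (hfib : ∀ w w', F (unstereo w) = F (unstereo w') ↔ φ w ^ d = φ w' ^ d) :
    ∃ Φ Ψ : OpenPartialHomeomorph S2 ℂ, IsOriented Φ ∧ IsOriented Ψ ∧
      unstereo w₀ ∈ Φ.source ∧ Φ (unstereo w₀) = 0 ∧ F (unstereo w₀) ∈ Ψ.source ∧
      Ψ (F (unstereo w₀)) = 0 ∧ (∀ q ∈ Φ.source, F q ∈ Ψ.source ∧ Ψ (F q) = Φ q ^ d) ∧
      (∀ q ∈ Φ.source, (q : V3) 2 ≠ 1 ∧ Φ q = φ (st q)) := by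
  have hana : AnalyticOnNhd ℂ φ univ := hφ.analyticOnNhd isOpen_univ
  have hsd : HasStrictDerivAt φ (deriv φ w₀) w₀ := (hana w₀ (mem_univ _)).hasStrictDerivAt
  set e := (hsd.hasStrictFDerivAt_equiv h1).toOpenPartialHomeomorph φ with he
  have hecoe : ∀ z, e z = φ z := fun z => rfl
  have hemem : w₀ ∈ e.source := HasStrictFDerivAt.mem_toOpenPartialHomeomorph_source _
  have hopen1 : IsOpen {w | deriv φ w ≠ 0} := by
    have hc : Continuous (deriv φ) := by
      rw [← continuousOn_univ]; exact hana.deriv.continuousOn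
    exact isOpen_ne_fun hc continuous_const
  set e' := e.restrOpen {w | deriv φ w ≠ 0} hopen1 with he'
  have he'coe : ∀ z, e' z = φ z := fun z => rfl
  have he's : e'.source = e.source ∩ {w | deriv φ w ≠ 0} :=
    OpenPartialHomeomorph.restrOpen_source _ _ _
  set Φ := stH.trans e' with hΦ
  have hΦcoe : ∀ q, Φ q = φ (st q) := fun q => rfl
  have hΦs : ∀ q, q ∈ Φ.source ↔ (q : V3) 2 ≠ 1 ∧ st q ∈ e'.source := by
    intro q
    rw [hΦ, OpenPartialHomeomorph.trans_source]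
    rfl
  have hmem0 : unstereo w₀ ∈ Φ.source := by
    rw [hΦs]
    refine ⟨(unstereo_two_lt w₀).ne, ?_⟩
    rw [st_unstereo, he's]
    exact ⟨hemem, h1⟩
  have hst : ∀ q ∈ Φ.source, unstereo (st q) = q := fun q hq => unstereo_st ((hΦs q).mp hq).1
  -- the target chart
  have : Nonempty S2 := ⟨unstereo w₀⟩
  obtain ⟨Ψ, hΨs, hΨ⟩ := exists_quotient_chart (g := F) (U := Φ.source) (k := fun q => Φ q ^ d)
    hF hFo Φ.open_source (Φ.continuousOn.pow d)
    (by
      intro V hV hVo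
      have : (fun q => Φ q ^ d) '' V = (fun z : ℂ => z ^ d) '' (Φ '' V) := by
        rw [image_image]
      rw [this]
      exact isOpenMap_pow' hd _ (Φ.isOpen_image_of_subset_source hVo hV))
    (by
      intro q hq q' hq'
      rw [hΦcoe, hΦcoe, ← hfib, hst q hq, hst q' hq'])
  have hderiv : ∀ w, unstereo w ∈ Φ.source → deriv φ w ≠ 0 := by
    intro w hw
    have := ((hΦs _).mp hw).2
    rw [st_unstereo, he's] at this
    exact this.2
  have hdφ : ∀ w, HasDerivAt φ (deriv φ w) w := fun w =>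
    (hφ.differentiableAt univ_mem).hasDerivAt
  have hcφ : Continuous φ := by
    rw [← continuousOn_univ]; exact hφ.continuousOn
  have hcontφ : ∀ w, ∀ᶠ x in 𝓝 w, ContinuousAt φ x := fun w =>
    Eventually.of_forall fun x => hcφ.continuousAt
  refine ⟨Φ, Ψ, ?_, ?_, hmem0, ?_, ?_, ?_, ?_, ?_⟩
  · -- orientation of Φ
    intro w hw
    have e1 : (fun z => Φ (unstereo z)) = φ := by
      ext z
      rw [hΦcoe, st_unstereo]
    rw [e1]
    exact op_of_hasDerivAt (hdφ w) (hderiv w hw) (hcontφ w)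
  · -- orientation of Ψ
    intro w₁ hw₁
    -- local injectivity
    have hO : IsOpen (unstereo ⁻¹' Ψ.source) := Ψ.open_source.preimage continuous_unstereo
    have hloc : ∀ w, unstereo w ∈ Ψ.source → LocInj (fun z => Ψ (unstereo z)) w := by
      intro w hw
      obtain ⟨R, hR, hsub⟩ := Metric.isOpen_iff.mp hO w hw
      refine ⟨R, hR, ?_, ?_⟩
      · exact Ψ.continuousOn.comp continuous_unstereo.continuousOn hsub
      · intro x hx y hy hxy
        exact unstereo_injective (Ψ.injOn (hsub hx) (hsub hy) hxy)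
    obtain ⟨O, hOsub, hOo, hOw⟩ := eventually_nhds_iff.mp
      ((op_eventually (hloc w₁ hw₁)).and (hO.mem_nhds hw₁))
    -- a good point
    have himg : IsOpen (unstereo '' O) := by
      have := stH.symm.isOpen_image_of_subset_source hOo (fun x _ => mem_univ x)
      exact this
    set A : Set ℂ := {u | unstereo u ∈ Φ.source ∧ F (unstereo u) ∈ unstereo '' O} with hA
    have hAo : IsOpen A := (Φ.open_source.preimage continuous_unstereo).inter
      (himg.preimage (hF.comp continuous_unstereo))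
    have hAne : A.Nonempty := by
      rw [hΨs] at hw₁
      obtain ⟨q, hq, hq'⟩ := hw₁
      refine ⟨st q, ?_, ?_⟩
      · rw [hst q hq]; exact hq
      · rw [hst q hq, hq']; exact ⟨w₁, hOw, rfl⟩
    have hdense : Dense (B ∪ {w₀})ᶜ := by
      apply (hB.union (countable_singleton w₀)).dense_compl ℝ
    obtain ⟨u, ⟨huA1, ⟨z, hz, hzu⟩⟩, hu⟩ := hdense.inter_open_nonempty A hAo hAne
    have hub : u ∉ B := fun h => hu (Or.inl h)
    have huw : u ≠ w₀ := fun h => hu (Or.inr h)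
    have hud := hderiv u huA1
    obtain ⟨hne, hopu⟩ := hop u hub
    have hfz : st (F (unstereo u)) = z := by
      rw [← hzu, st_unstereo]
    have hcont : ContinuousAt (fun w => st (F (unstereo w))) u := by
      have h3 : ContinuousAt st (F (unstereo u)) :=
        continuousOn_st.continuousAt (stH.open_source.mem_nhds hne)
      exact ContinuousAt.comp (f := fun w => F (unstereo w)) h3
        (hF.comp continuous_unstereo).continuousAt
    have hzΨ : unstereo z ∈ Ψ.source := (hOsub z hz).2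
    have key : PreservesOrientationAt (fun z => Ψ (unstereo z)) (st (F (unstereo u))) := by
      rw [op_comp hcont hopu (by rw [hfz]; exact hloc z hzΨ)]
      have hev : (fun z => Ψ (unstereo (st (F (unstereo z))))) =ᶠ[𝓝 u] fun z => φ z ^ d := by
        have hopenS : ∀ᶠ x in 𝓝 u, unstereo x ∈ Φ.source :=
          (Φ.open_source.preimage continuous_unstereo).mem_nhds huA1
        have hopenN : ∀ᶠ x in 𝓝 u, (F (unstereo x) : V3) 2 ≠ 1 := by
          have h3 : Continuous fun w : ℂ => (F (unstereo w) : V3) :=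
            continuous_subtype_val.comp (hF.comp continuous_unstereo)
          have h4 : Continuous fun x : V3 => x 2 := by fun_prop
          exact (h4.comp h3).continuousAt.eventually_ne hne
        filter_upwards [hopenS, hopenN] with x hx1 hx2
        rw [unstereo_st hx2, hΨ _ hx1, hΦcoe, st_unstereo]
      rw [op_congr hev]
      have hφu : φ u ≠ 0 := by
        intro h
        apply huw
        have h2 := ((hΦs _).mp huA1).2
        have h3 := ((hΦs _).mp hmem0).2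
        rw [st_unstereo] at h2 h3
        apply e'.injOn h2 h3
        rw [he'coe, he'coe, h, h0]
      have hd' : HasDerivAt (fun z => φ z ^ d) ((d : ℂ) * φ u ^ (d - 1) * deriv φ u) u :=
        (hdφ u).pow d
      refine op_of_hasDerivAt hd' ?_ ?_
      · refine mul_ne_zero (mul_ne_zero ?_ (pow_ne_zero _ hφu)) hud
        exact_mod_cast (by omega : d ≠ 0)
      · filter_upwards [hcontφ u] with x hx using hx.pow d
    have hz1 := (hOsub z hz).1
    rw [hfz] at key
    exact hz1.mpr key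
  · rw [hΦcoe, st_unstereo, h0]
  · rw [hΨs]; exact ⟨_, hmem0, rfl⟩
  · rw [hΨ _ hmem0, hΦcoe, st_unstereo, h0, zero_pow (by omega)]
  · intro q hq
    refine ⟨?_, hΨ q hq⟩
    rw [hΨs]; exact ⟨q, hq, rfl⟩
  · intro q hq
    exact ⟨((hΦs q).mp hq).1, rfl⟩

theorem hop_ff : ∀ u, u ∉ badw → (ff (unstereo u) : V3) 2 ≠ 1 ∧
      PreservesOrientationAt (fun w => st (ff (unstereo w))) u := by
  intro u hu
  exact ⟨fun h => hu (Or.inr h), op_gh hu⟩

theorem model_S : ∃ Φ Ψ : OpenPartialHomeomorph S2 ℂ, IsOriented Φ ∧ IsOriented Ψ ∧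
      unstereo 0 ∈ Φ.source ∧ Φ (unstereo 0) = 0 ∧ ff (unstereo 0) ∈ Ψ.source ∧
      Ψ (ff (unstereo 0)) = 0 ∧ (∀ q ∈ Φ.source, ff q ∈ Ψ.source ∧ Ψ (ff q) = Φ q ^ 2) ∧
      (∀ q ∈ Φ.source, (q : V3) 2 ≠ 1 ∧ Φ q = st q) :=
  local_model continuous_ff isOpenMap_ff finite_badw.countable hop_ff (by norm_num)
    (φ := fun w => w) (by fun_prop) rfl (by simp)
    (fun w w' => ff_unstereo_eq.trans ⟨fun h => h.symm, fun h => h.symm⟩)

theorem localDegree_S : HasLocalDegree ff (unstereo 0) 2 := by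
  obtain ⟨Φ, Ψ, a1, a2, a3, a4, a5, a6, a7, _⟩ := model_S
  exact ⟨by norm_num, Φ, Ψ, a1, a2, a3, a4, a5, a6, a7⟩

theorem localDegree_ne {w₀ : ℂ} (hw : w₀ ≠ 0) : HasLocalDegree ff (unstereo w₀) 1 := by
  obtain ⟨Φ, Ψ, a1, a2, a3, a4, a5, a6, a7, _⟩ :=
    local_model continuous_ff isOpenMap_ff finite_badw.countable hop_ff (w₀ := w₀) (le_refl 1)
    (φ := fun w => w ^ 2 - w₀ ^ 2) (by fun_prop) (by simp)
    (by
      have : HasDerivAt (fun w : ℂ => w ^ 2 - w₀ ^ 2) (2 * w₀) w₀ := by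
        have h2 : HasDerivAt (fun w : ℂ => w ^ 2) (2 * w₀) w₀ := by
          simpa using hasDerivAt_pow 2 w₀
        exact h2.sub_const _
      rw [this.deriv]
      exact mul_ne_zero two_ne_zero hw)
    (fun w w' => by
      rw [ff_unstereo_eq, pow_one, pow_one]
      constructor
      · intro h; rw [h]
      · intro h; linear_combination -h)
  exact ⟨le_rfl, Φ, Ψ, a1, a2, a3, a4, a5, a6, a7⟩

/-- the north pole -/
noncomputable def NN : S2 := s1 (unstereo 0)

theorem NN_two : (NN : V3) 2 = 1 := by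
  unfold NN
  rw [s1_coe]
  simp [g1]

theorem eq_NN {p : S2} (hp : (p : V3) 2 = 1) : p = NN := sphere_top hp NN_two

/-- the composition with the half-turn that exchanges the poles -/
noncomputable def ff1 (v : S2) : S2 := ff (s1 v)

theorem s1_s3 (v : S2) : s1 (s3 v) = s3 (s1 v) := by
  apply Subtype.ext
  rw [s1_coe, s3_coe, s3_coe, s1_coe]
  apply v3_ext <;> simp [g1, g3]

theorem s1_s1 (v : S2) : s1 (s1 v) = v := by
  apply Subtype.ext
  rw [s1_coe, s1_coe, g1_g1]

theorem ff1_unstereo_eq {w w' : ℂ} : ff1 (unstereo w) = ff1 (unstereo w') ↔ w' ^ 2 = w ^ 2 := by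
  rw [← ff_unstereo_eq]
  unfold ff1
  rw [ff_eq_iff, ff_eq_iff, ← s1_s3, s1.injective.eq_iff, s1.injective.eq_iff]

theorem hop_ff1 : ∀ u, u ∉ ({0} ∪ (fun w : ℂ => w⁻¹) ⁻¹' badw : Set ℂ) →
    (ff1 (unstereo u) : V3) 2 ≠ 1 ∧
      PreservesOrientationAt (fun w => st (ff1 (unstereo w))) u := by
  intro u hu
  have hu0 : u ≠ 0 := fun h => hu (Or.inl h)
  have hub : u⁻¹ ∉ badw := fun h => hu (Or.inr h)
  have e : ∀ w : ℂ, w ≠ 0 → ff1 (unstereo w) = ff (unstereo w⁻¹) := by
    intro w hw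
    unfold ff1
    rw [unstereo_inv hw]
  refine ⟨?_, ?_⟩
  · rw [e u hu0]
    exact fun h => hub (Or.inr h)
  · have hcinv : ContinuousAt (fun w : ℂ => w⁻¹) u := continuousAt_inv₀ hu0
    have hopinv : PreservesOrientationAt (fun w : ℂ => w⁻¹) u := by
      refine op_of_hasDerivAt (hasDerivAt_inv hu0) ?_ ?_
      · exact neg_ne_zero.mpr (inv_ne_zero (pow_ne_zero 2 hu0))
      · filter_upwards [isOpen_ne.mem_nhds hu0] with x hx using continuousAt_inv₀ hx
    have := (op_comp (k := fun w : ℂ => w⁻¹) (g := gh) hcinv hopinv (locInj_gh hub)).mp (op_gh hub)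
    refine (op_congr ?_).mpr this
    filter_upwards [isOpen_ne.mem_nhds hu0] with x hx
    rw [e x hx]
    rfl

theorem localDegree_N : HasLocalDegree ff NN 2 := by
  have hcount : ({0} ∪ (fun w : ℂ => w⁻¹) ⁻¹' badw : Set ℂ).Countable :=
    (countable_singleton 0).union (finite_badw.countable.preimage_of_injOn inv_injective.injOn)
  obtain ⟨Φ, Ψ, a1, a2, a3, a4, a5, a6, a7, a8⟩ :=
    local_model (F := ff1) (continuous_ff.comp s1.continuous)
      (isOpenMap_ff.comp s1.isOpenMap) hcount hop_ff1 (w₀ := 0) (d := 2) (by norm_num)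
      (φ := fun w => w) (by fun_prop) rfl (by simp)
      (fun w w' => ff1_unstereo_eq.trans ⟨fun h => h.symm, fun h => h.symm⟩)
  refine ⟨by norm_num, s1.toOpenPartialHomeomorph.trans Φ, Ψ, ?_, a2, ?_, ?_, ?_, ?_, ?_⟩
  · intro w hw
    have hw' : s1 (unstereo w) ∈ Φ.source := by
      rw [OpenPartialHomeomorph.trans_source] at hw
      exact hw.2
    have hw0 : w ≠ 0 := by
      rintro rfl
      apply (a8 _ hw').1
      exact NN_two
    have hev : (fun z => (s1.toOpenPartialHomeomorph.trans Φ) (unstereo z)) =ᶠ[𝓝 w]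
        fun z => z⁻¹ := by
      have h1 : ∀ᶠ z in 𝓝 w, s1 (unstereo z) ∈ Φ.source :=
        (Φ.open_source.preimage (s1.continuous.comp continuous_unstereo)).mem_nhds hw'
      filter_upwards [h1, isOpen_ne.mem_nhds hw0] with z hz1 hz2
      change Φ (s1 (unstereo z)) = z⁻¹
      rw [(a8 _ hz1).2, ← unstereo_inv hz2, st_unstereo]
    rw [op_congr hev]
    refine op_of_hasDerivAt (hasDerivAt_inv hw0) ?_ ?_
    · exact neg_ne_zero.mpr (inv_ne_zero (pow_ne_zero 2 hw0))
    · filter_upwards [isOpen_ne.mem_nhds hw0] with x hx using continuousAt_inv₀ hx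
  · rw [OpenPartialHomeomorph.trans_source]
    exact ⟨mem_univ _, by change s1 NN ∈ Φ.source; unfold NN; rw [s1_s1]; exact a3⟩
  · change Φ (s1 NN) = 0
    unfold NN
    rw [s1_s1]; exact a4
  · exact a5
  · exact a6
  · intro q hq
    rw [OpenPartialHomeomorph.trans_source] at hq
    obtain ⟨b1, b2⟩ := a7 _ hq.2
    have e : ff1 (s1 q) = ff q := by unfold ff1; rw [s1_s1]
    change ff1 (s1 q) ∈ Ψ.source at b1
    change Ψ (ff1 (s1 q)) = Φ (s1 q) ^ 2 at b2
    rw [e] at b1 b2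
    exact ⟨b1, b2⟩

theorem isBranchedCovering_ff : IsBranchedCovering ff := by
  refine ⟨continuous_ff, ?_⟩
  intro p
  by_cases hp : (p : V3) 2 = 1
  · rw [eq_NN hp]; exact ⟨2, localDegree_N⟩
  · rw [← unstereo_st hp]
    by_cases h : st p = 0
    · rw [h]; exact ⟨2, localDegree_S⟩
    · exact ⟨1, localDegree_ne h⟩

theorem s3_fixed {p : S2} (h : s3 p = p) : p = NN ∨ p = unstereo 0 := by
  have h0 : -(p : V3) 0 = (p : V3) 0 := by
    have := congrArg (fun v : S2 => (v : V3) 0) h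
    simpa [s3_coe, g3] using this
  have h1 : -(p : V3) 1 = (p : V3) 1 := by
    have := congrArg (fun v : S2 => (v : V3) 1) h
    simpa [s3_coe, g3] using this
  have h0' : (p : V3) 0 = 0 := by linarith
  have h1' : (p : V3) 1 = 0 := by linarith
  have hs := sum_sq p
  rw [h0', h1'] at hs
  have h2 : (p : V3) 2 ^ 2 = 1 := by linarith
  rcases sq_eq_one_iff_real h2 with h2 | h2
  · left; exact eq_NN h2
  · right
    apply Subtype.ext
    apply v3_ext
    · rw [h0']; simp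
    · rw [h1']; simp
    · rw [h2]; simp

theorem crit_ff : crit ff = {NN, unstereo 0} := by
  ext p
  constructor
  · rintro ⟨d, hd, h⟩
    by_contra hp
    have hne : s3 p ≠ p := fun h => hp (s3_fixed h)
    apply not_locInj_of_localDegree hd h
    have hcl : ∀ᶠ x : S2 × S2 in 𝓝 (p, p), s3 x.1 ≠ x.2 := by
      have c1 : Continuous (fun x : S2 × S2 => s3 x.1) := s3.continuous.comp continuous_fst
      exact (isOpen_ne_fun c1 continuous_snd).mem_nhds hne
    rw [nhds_prod_eq, Filter.eventually_iff, Filter.mem_prod_same_iff] at hcl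
    obtain ⟨V, hV, hts⟩ := hcl
    refine ⟨V, hV, ?_⟩
    intro x hx y hy hxy
    rcases ff_eq_iff.mp hxy with h1 | h1
    · exact h1.symm
    · exact absurd h1.symm (hts (show (x, y) ∈ V ×ˢ V from ⟨hx, hy⟩))
  · rintro (rfl | h)
    · exact ⟨2, le_rfl, localDegree_N⟩
    · rw [mem_singleton_iff] at h
      rw [h]
      exact ⟨2, le_rfl, localDegree_S⟩

theorem hasDegree_ff : HasDegree ff 2 := by
  intro y hy
  obtain ⟨p, rfl⟩ := ff_surjective y
  have hp : p ∉ crit ff := fun h => hy ⟨p, h, rfl⟩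
  have e : ff ⁻¹' {ff p} = {p, s3 p} := by
    ext v
    constructor
    · intro hv
      rcases ff_eq_iff.mp (Eq.symm hv) with h | h
      · left; exact h
      · right; exact h
    · rintro (h | h)
      · rw [h]; rfl
      · rw [mem_singleton_iff] at h; rw [h]; exact ff_s3 p
  rw [e, ncard_pair]
  intro h
  apply hp
  rw [crit_ff]
  rcases s3_fixed h.symm with h | h
  · left; exact h
  · right; exact h

/-! ### The postcritical set -/

theorem AA_mk (x y : ℝ) : AA ⟨x, y⟩ = ⟨-2 * y, x + y⟩ := rfl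

theorem NN_eq : NN = pr ⟨Real.pi / 2, Real.pi / 2⟩ := by
  have h2 : (pr ⟨Real.pi / 2, Real.pi / 2⟩ : V3) 2 = 1 := by
    have h0 := cc_apply ⟨Real.pi / 2, Real.pi / 2⟩ 0
    have h1 := cc_apply ⟨Real.pi / 2, Real.pi / 2⟩ 1
    have h2 := cc_apply ⟨Real.pi / 2, Real.pi / 2⟩ 2
    have hn := norm_cc_pos ⟨Real.pi / 2, Real.pi / 2⟩
    rw [cc_zero] at h0
    rw [cc_one] at h1
    rw [cc_two] at h2
    simp only [Real.cos_pi_div_two, Real.sin_pi_div_two, mul_one] at h0 h1 h2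
    have hs := sum_sq (pr ⟨Real.pi / 2, Real.pi / 2⟩)
    have a0 := (mul_eq_zero.mp h0.symm).resolve_left hn.ne'
    have a1 := (mul_eq_zero.mp h1.symm).resolve_left hn.ne'
    rw [a0, a1] at hs
    have h3 : (pr ⟨Real.pi / 2, Real.pi / 2⟩ : V3) 2 ^ 2 = 1 := by linarith
    rcases sq_eq_one_iff_real h3 with h | h
    · exact h
    · rw [h] at h2; linarith
  exact (eq_NN h2).symm

theorem SS_eq : unstereo 0 = pr ⟨-(Real.pi / 2), Real.pi / 2⟩ := by
  have h0 := cc_apply ⟨-(Real.pi / 2), Real.pi / 2⟩ 0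
  have h1 := cc_apply ⟨-(Real.pi / 2), Real.pi / 2⟩ 1
  have h2 := cc_apply ⟨-(Real.pi / 2), Real.pi / 2⟩ 2
  have hn := norm_cc_pos ⟨-(Real.pi / 2), Real.pi / 2⟩
  rw [cc_zero] at h0
  rw [cc_one] at h1
  rw [cc_two] at h2
  simp only [Real.cos_neg, Real.sin_neg, Real.cos_pi_div_two, Real.sin_pi_div_two, mul_one]
    at h0 h1 h2
  have hs := sum_sq (pr ⟨-(Real.pi / 2), Real.pi / 2⟩)
  have a0 := (mul_eq_zero.mp h0.symm).resolve_left hn.ne'
  have a1 := (mul_eq_zero.mp h1.symm).resolve_left hn.ne'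
  rw [a0, a1] at hs
  have h3 : (pr ⟨-(Real.pi / 2), Real.pi / 2⟩ : V3) 2 ^ 2 = 1 := by linarith
  have h4 : (pr ⟨-(Real.pi / 2), Real.pi / 2⟩ : V3) 2 = -1 := by
    rcases sq_eq_one_iff_real h3 with h | h
    · rw [h] at h2; linarith
    · exact h
  apply Subtype.ext
  apply v3_ext
  · rw [a0]; simp
  · rw [a1]; simp
  · rw [h4]; simp

theorem ff_NN : ff NN = pr ⟨Real.pi, Real.pi⟩ := by
  rw [NN_eq, ff_pr, ← pr_add_lat _ 1 0]
  congr 1
  rw [AA_mk]
  apply Complex.ext
  · simp; ring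
  · simp

theorem ff_SS : ff (unstereo 0) = pr ⟨Real.pi, 0⟩ := by
  rw [SS_eq, ff_pr, ← pr_add_lat _ 1 0]
  congr 1
  rw [AA_mk]
  apply Complex.ext
  · simp; ring
  · simp

theorem ff_P1 : ff (pr ⟨Real.pi, Real.pi⟩) = pr 0 := by
  rw [ff_pr, ← pr_add_lat _ 1 (-1)]
  congr 1
  rw [AA_mk]
  apply Complex.ext
  · simp
  · simp; ring

theorem ff_P2 : ff (pr ⟨Real.pi, 0⟩) = pr ⟨0, Real.pi⟩ := by
  rw [ff_pr]
  congr 1
  rw [AA_mk]
  apply Complex.ext
  · simp
  · simp

theorem ff_P0 : ff (pr 0) = pr 0 := by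
  rw [ff_pr]
  congr 1
  apply Complex.ext <;> simp

theorem ff_P3 : ff (pr ⟨0, Real.pi⟩) = pr ⟨0, Real.pi⟩ := by
  rw [ff_pr, ← pr_add_lat _ 1 0]
  congr 1
  rw [AA_mk]
  apply Complex.ext
  · simp
  · simp

theorem post_ff : post ff = {pr ⟨Real.pi, Real.pi⟩, pr ⟨Real.pi, 0⟩, pr 0, pr ⟨0, Real.pi⟩} := by
  set Q4 : Set S2 := {pr ⟨Real.pi, Real.pi⟩, pr ⟨Real.pi, 0⟩, pr 0, pr ⟨0, Real.pi⟩} with hQ
  have hmap : ∀ v ∈ Q4, ff v ∈ Q4 := by
    rintro v (rfl | rfl | rfl | h)
    · rw [ff_P1, hQ]; simp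
    · rw [ff_P2, hQ]; simp
    · rw [ff_P0, hQ]; simp
    · rw [mem_singleton_iff] at h
      rw [h, ff_P3, hQ]; simp
  have hiter : ∀ n : ℕ, ∀ v ∈ Q4, ff^[n] v ∈ Q4 := by
    intro n
    induction n with
    | zero => intro v hv; exact hv
    | succ n ih => intro v hv; rw [Function.iterate_succ_apply]; exact ih _ (hmap v hv)
  apply Subset.antisymm
  · intro v hv
    obtain ⟨n, hn⟩ := mem_iUnion.mp hv
    obtain ⟨c, hc, rfl⟩ := hn
    rw [Function.iterate_succ_apply]
    apply hiter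
    rw [crit_ff] at hc
    rcases hc with rfl | hc
    · rw [ff_NN, hQ]; simp
    · rw [mem_singleton_iff] at hc
      rw [hc, ff_SS, hQ]; simp
  · have hN : NN ∈ crit ff := by rw [crit_ff]; simp
    have hS : unstereo 0 ∈ crit ff := by rw [crit_ff]; simp
    rintro v (rfl | rfl | rfl | h)
    · exact mem_iUnion.mpr ⟨0, NN, hN, ff_NN⟩
    · exact mem_iUnion.mpr ⟨0, _, hS, ff_SS⟩
    · refine mem_iUnion.mpr ⟨1, NN, hN, ?_⟩
      rw [Function.iterate_succ_apply, ff_NN]
      exact ff_P1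
    · rw [mem_singleton_iff] at h
      rw [h]
      refine mem_iUnion.mpr ⟨1, _, hS, ?_⟩
      rw [Function.iterate_succ_apply, ff_SS]
      exact ff_P2

theorem post_subset_Eq0 : post ff ⊆ Eq0 := by
  rw [post_ff]
  rintro v (rfl | rfl | rfl | h)
  · rw [pr_mem_Eq0]; simp
  · rw [pr_mem_Eq0]; simp
  · rw [pr_mem_Eq0]; simp
  · rw [mem_singleton_iff] at h
    rw [h, pr_mem_Eq0]; simp

theorem isExpandingThurstonMap_ff : IsExpandingThurstonMap ff := by
  refine ⟨⟨isBranchedCovering_ff, ⟨2, le_rfl, hasDegree_ff⟩, ?_⟩, Eq0, isJordanCurve_Eq0,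
    post_subset_Eq0, mesh_tendsto⟩
  rw [post_ff]
  exact Set.toFinite _

/-! ### The postcritical points and the axes -/

theorem norm_cc_of {z : ℂ} (h2 : cc z 2 = 0) (h0 : cc z 0 ^ 2 = 1) (h1 : cc z 1 ^ 2 = 1) :
    ‖cc z‖ = √2 := by
  rw [EuclideanSpace.norm_eq]
  simp only [Fin.sum_univ_three, Real.norm_eq_abs, sq_abs]
  rw [h0, h1, h2]
  norm_num

theorem hw_pr {z : ℂ} (h2 : cc z 2 = 0) (h0 : cc z 0 ^ 2 = 1) (h1 : cc z 1 ^ 2 = 1) (ε : ℝ) :
    hw ε (pr z) = (cc z 0 - ε * cc z 1) / 2 := by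
  have hn := norm_cc_of h2 h0 h1
  unfold hw
  rw [pr_apply, pr_apply, hn]
  have h : (√2 : ℝ) ^ 2 = 2 := Real.sq_sqrt (by norm_num)
  have hs : (√2 : ℝ) ≠ 0 := by positivity
  field_simp
  rw [h]
  ring

theorem hw_values :
    hw 1 (pr ⟨Real.pi, 0⟩) = 1 ∧ hw 1 (pr ⟨0, Real.pi⟩) = -1 ∧ hw (-1) (pr 0) = 1 ∧
      hw (-1) (pr ⟨Real.pi, Real.pi⟩) = -1 := by
  refine ⟨?_, ?_, ?_, ?_⟩
  · rw [hw_pr (by simp) (by simp) (by simp)]; simp <;> norm_num
  · rw [hw_pr (by simp) (by simp) (by simp)]; simp <;> norm_num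
  · rw [hw_pr (by simp) (by simp) (by simp)]; simp <;> norm_num
  · rw [hw_pr (by simp) (by simp) (by simp)]; simp <;> norm_num

/-- The main theorem in its general form. -/
theorem main_ff {T : Set S2} (hTc : IsClosed T) (hT : IsPreconnected T) (hU : IsConnected Tᶜ)
    (hpost : post ff ⊆ T) (hinv : MapsTo ff T T) : False := by
  obtain ⟨v1, v2, v3, v4⟩ := hw_values
  refine no_invariant hTc hT hU ?_ ?_ hinv
  · rintro v ⟨ε, hε, hv⟩
    apply hpost
    rw [post_ff]
    rcases sq_eq_one_iff_real hε with rfl | rfl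
    · rcases sq_eq_one_iff_real hv with h | h
      · rw [top_unique hε h v1]; simp
      · rw [bot_unique hε h v2]; simp
    · rcases sq_eq_one_iff_real hv with h | h
      · rw [top_unique hε h v3]; simp
      · rw [bot_unique hε h v4]; simp
  · intro ε hε
    rcases sq_eq_one_iff_real hε with rfl | rfl
    · exact ⟨_, _, v1, v2⟩
    · exact ⟨_, _, v3, v4⟩

end Pool.Agent.Run7.h327.Tr
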