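import Mathlib
import Pool.Agent.Run7.h327.Tr.Loc

/-!
# Graphs and trees in the sphere
-/

set_option autoImplicit false

open Set Filter Topology

namespace Pool.Agent.Run7.h327.Tr

open Pool.Agent.Run7.h327.Th

/-- A graph in the sphere: a connected set that is the union of finitely many arcs `γ i`, any two
of which meet at most in common endpoints. -/
def IsGraph (G : Set S2) : Prop :=
  IsConnected G ∧ ∃ (n : ℕ) (γ : Fin n → unitInterval → S2),
    (∀ i, Continuous (γ i) ∧ Function.Injective (γ i)) ∧ G = ⋃ i, range (γ i) ∧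
    ∀ i j, i ≠ j → range (γ i) ∩ range (γ j) ⊆ {γ i 0, γ i 1} ∩ {γ j 0, γ j 1}

/-- A tree in the sphere: a graph with connected complement. -/
def IsTree (T : Set S2) : Prop := IsGraph T ∧ IsConnected Tᶜ

theorem IsGraph.isClosed {G : Set S2} (h : IsGraph G) : IsClosed G := by
  obtain ⟨_, n, γ, hγ, rfl, _⟩ := h
  exact (isCompact_iUnion fun i => isCompact_range (hγ i).1).isClosed

theorem main : ∃ f : S2 → S2, IsExpandingThurstonMap f ∧ HasDegree f 2 ∧
    (∀ T : Set S2, IsTree T → post f ⊆ T → ¬ f '' T ⊆ T) ∧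
    ∀ T : Set S2, IsClosed T → IsConnected T → IsConnected Tᶜ → post f ⊆ T → ¬ f '' T ⊆ T := by
  have key : ∀ T : Set S2, IsClosed T → IsConnected T → IsConnected Tᶜ → post ff ⊆ T →
      ¬ ff '' T ⊆ T := fun T h1 h2 h3 h4 h5 =>
    main_ff h1 h2.isPreconnected h3 h4 fun x hx => h5 ⟨x, hx, rfl⟩
  exact ⟨ff, isExpandingThurstonMap_ff, hasDegree_ff,
    fun T hT => key T hT.1.isClosed hT.1.1 hT.2, key⟩

end Pool.Agent.Run7.h327.Tr
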